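import Pool.Agent.Helper69K9.PS.Dens

/-! The sequences `⌊n ^ c⌋` in residue classes; the case `k = 1`. -/

set_option autoImplicit false

namespace Pool.Agent.Helper69K9.PS

open Finset Filter Topology Pool.Agent.H499R2.ND Pool.Agent.W41 Pool.Agent.W36.FD Pool.Agent.Helper82K9.GK
open Pool.Agent.Helper82K9.PM Pool.Agent.Y965.PS
open Pool.Agent.Results.MP_7f88e4_nt.ResidueClasses (Rel)

open Classical in
/-- the number of the `n` in a class -/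
theorem class_count {c : ℝ} (hc : 1 < c) (hc' : c < 101 / 100) : ∃ K : ℝ, 0 ≤ K ∧
    ∀ Q : ℕ, 1 ≤ Q → ∀ b : ℤ, ∀ X : ℕ, 1 ≤ X →
      |(((Icc 1 X).filter (fun n : ℕ => ⌊(n : ℝ) ^ c⌋ ≡ b [ZMOD Q])).card : ℝ) - (X : ℝ) / Q| ≤
        K * (X : ℝ) ^ (1 - 1 / 4000 : ℝ) := by
  have hc0 : 0 < c := by linarith
  obtain ⟨K, hK, H⟩ := trans_ap (d := 1) (by norm_num) hc hc'
  refine ⟨K + 2, by linarith, fun Q hQ b X hX => ?_⟩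
  have hXR : (1 : ℝ) ≤ X := by exact_mod_cast hX
  have hQ1 : (1 : ℝ) ≤ Q := by exact_mod_cast hQ
  have hγ0 : 0 < 1 / c := by positivity
  have hγ1 : 1 / c < 1 := by rw [div_lt_one hc0]; exact hc
  have t1 := H _ (sync_one (d := 1)) Q hQ b X hX
  have e1 : ∑ n ∈ Icc 1 X, (if ⌊(n : ℝ) ^ c⌋ ≡ b [ZMOD Q] then (fun _ : ℤ => (1 : ℝ)) ⌊(n : ℝ) ^ c⌋ else 0) =
      (((Icc 1 X).filter (fun n : ℕ => ⌊(n : ℝ) ^ c⌋ ≡ b [ZMOD Q])).card : ℝ) := by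
    simp only
    rw [sum_boole]
  rw [e1] at t1
  have hab := Pool.Agent.Y965.PS.abel hγ0 hγ1 (a := fun m : ℕ => if (m : ℤ) ≡ b [ZMOD Q] then (1 : ℝ) else 0)
    (δ := 1 / (Q : ℝ)) (ε := 0) (C := 1) le_rfl zero_le_one (by
      intro m
      rw [sum_boole, zero_mul, zero_add]
      have h1 := card_class_le m Q hQ b
      have h2 := card_class_ge m Q hQ b
      have e : 1 / (Q : ℝ) * m = m / Q := by ring
      rw [e, abs_le]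
      constructor <;> linarith) ⌊(X : ℝ) ^ c⌋₊
  have e2 : ∑ m ∈ Icc 1 ⌊(X : ℝ) ^ c⌋₊, (((m : ℝ) + 1) ^ (1 / c) - (m : ℝ) ^ (1 / c)) *
      (if (m : ℤ) ≡ b [ZMOD Q] then (fun _ : ℤ => (1 : ℝ)) (m : ℤ) else 0) =
      ∑ m ∈ Icc 1 ⌊(X : ℝ) ^ c⌋₊, (fun m : ℕ => if (m : ℤ) ≡ b [ZMOD Q] then (1 : ℝ) else 0) m * ell (1 / c) m := by
    apply sum_congr rfl
    intro m _
    unfold ell
    dsimp only
    ring
  rw [e2] at t1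
  have h1 := abs_le.1 t1
  have h2 := abs_le.1 hab
  obtain ⟨h3, h3'⟩ := size_M hc X
  have h6 : 1 / (Q : ℝ) ≤ 1 := by rw [div_le_one (by linarith)]; exact hQ1
  have h60 : 0 ≤ 1 / (Q : ℝ) := by positivity
  have h4 : (X : ℝ) / Q - 1 ≤ 1 / (Q : ℝ) * (((⌊(X : ℝ) ^ c⌋₊ : ℝ) + 1) ^ (1 / c) - 1) := by
    have h5 : 1 / (Q : ℝ) * ((X : ℝ) - 1) ≤ 1 / (Q : ℝ) * (((⌊(X : ℝ) ^ c⌋₊ : ℝ) + 1) ^ (1 / c) - 1) :=
      mul_le_mul_of_nonneg_left (by linarith) h60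
    have h7 : 1 / (Q : ℝ) * ((X : ℝ) - 1) = X / Q - 1 / Q := by ring
    linarith
  have h4' : 1 / (Q : ℝ) * (((⌊(X : ℝ) ^ c⌋₊ : ℝ) + 1) ^ (1 / c) - 1) ≤ (X : ℝ) / Q := by
    have h5 : 1 / (Q : ℝ) * (((⌊(X : ℝ) ^ c⌋₊ : ℝ) + 1) ^ (1 / c) - 1) ≤ 1 / (Q : ℝ) * X :=
      mul_le_mul_of_nonneg_left (by linarith) h60
    have h7 : 1 / (Q : ℝ) * (X : ℝ) = X / Q := by ring
    linarith
  have hpow : (1 : ℝ) ≤ (X : ℝ) ^ (1 - 1 / 4000 : ℝ) := Real.one_le_rpow hXR (by norm_num)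
  have e5 : (K + 2) * (X : ℝ) ^ (1 - 1 / 4000 : ℝ) = K * (X : ℝ) ^ (1 - 1 / 4000 : ℝ) + 2 * (X : ℝ) ^ (1 - 1 / 4000 : ℝ) := by ring
  rw [e5, abs_le]
  constructor <;> linarith [h1.1, h1.2, h2.1, h2.2]

/-- the local density for `k = 1` -/
theorem phi_one {s : ℤ} (hs : s = 1 ∨ s = -1) {S : Set ℤ} {δ : ℝ} (h0 : 0 ≤ δ) (h1 : δ ≤ 1) (h : HD s S δ) :
    IsPhi 1 s S (fun _ => δ) := by
  refine ⟨fun _ => ⟨h0, h1⟩, fun _ _ _ => rfl, fun a => ?_⟩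
  have h2 := cF_tendsto hs h
  have e1 : ∀ N : ℕ, cA s S 1 a N = cF s S N := by
    intro N
    unfold cA cF
    congr 1
    ext m
    simp only [mem_filter, Nat.cast_one, Int.modEq_one, and_true]
  simp only [Int.natAbs_one, Nat.cast_one, div_one]
  refine h2.congr fun N => ?_
  rw [e1]

/-- the density along the sequence in progressions, `k = 1` -/
theorem dens_one {c : ℝ} (hc : 1 < c) (hc' : c < 101 / 100) {s : ℤ} (hs : s = 1 ∨ s = -1) {ε : ℝ} (hε : 0 < ε) :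
    ∃ θ : ℝ, 0 < θ ∧ ∃ X₀ : ℕ, 1 ≤ X₀ ∧ ∀ S : Set ℤ, Inv 1 S → ∀ δ : ℝ, 0 ≤ δ → δ ≤ 1 → HD s S δ →
    ∀ X : ℕ, X₀ ≤ X → ∀ q : ℕ, 1 ≤ q → (q : ℝ) ≤ (X : ℝ) ^ θ → ∀ a : ℤ,
      |(cntc s c q a S X : ℝ) - δ * ((X : ℝ) / q)| ≤ ε * ((X : ℝ) / q) := by
  classical
  obtain ⟨θ, hθ, X₀, hX₀, H⟩ := dens_ps (d := 1) (Or.inl (by norm_num)) hc hc' hs (show 0 < ε / 2 by positivity)
  obtain ⟨K, hK, H2⟩ := class_count hc hc'
  have hlim : Tendsto (fun X : ℕ => K * (X : ℝ) ^ (-(1 / 8000) : ℝ)) atTop (𝓝 0) := by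
    have h1 := (tendsto_rpow_neg_atTop (show (0 : ℝ) < 1 / 8000 by norm_num)).comp tendsto_natCast_atTop_atTop
    have h2 := h1.const_mul K
    rw [mul_zero] at h2
    exact h2
  obtain ⟨X1, hX1⟩ := (hlim.eventually (gt_mem_nhds (show (0 : ℝ) < ε / 2 by positivity))).exists_forall_of_atTop
  refine ⟨min θ (1 / 8000), lt_min hθ (by norm_num), X₀ + X1, by omega, fun S hS δ h0 h1 hδ X hX q hq hqX a => ?_⟩
  have hXR : (1 : ℝ) ≤ X := by exact_mod_cast (by omega : 1 ≤ X)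
  have hX0 : (0 : ℝ) < X := by linarith
  have hq0 : (0 : ℝ) < q := by exact_mod_cast hq
  have hq1 : (q : ℝ) ≤ (X : ℝ) ^ θ := hqX.trans (Real.rpow_le_rpow_of_exponent_le hXR (min_le_left _ _))
  have hq2 : (q : ℝ) ≤ (X : ℝ) ^ (1 / 8000 : ℝ) := hqX.trans (Real.rpow_le_rpow_of_exponent_le hXR (min_le_right _ _))
  have t1 := H S hS _ (phi_one hs h0 h1 hδ) X (by omega) q hq hq1 a
  have t2 := H2 q hq a X (by omega)
  rw [sum_const, nsmul_eq_mul, mul_comm _ δ] at t1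
  have h9 : K * (X : ℝ) ^ (1 - 1 / 4000 : ℝ) ≤ ε / 2 * (X / q) := by
    have e1 : (X : ℝ) ^ (1 - 1 / 4000 : ℝ) = (X : ℝ) ^ (-(1 / 8000) : ℝ) * (X : ℝ) ^ (1 - 1 / 8000 : ℝ) := by
      rw [← Real.rpow_add hX0]; norm_num
    have e2 : (X : ℝ) ^ (1 - 1 / 8000 : ℝ) ≤ X / q := by
      rw [le_div_iff₀ hq0]
      calc (X : ℝ) ^ (1 - 1 / 8000 : ℝ) * q ≤ (X : ℝ) ^ (1 - 1 / 8000 : ℝ) * (X : ℝ) ^ (1 / 8000 : ℝ) := by gcongr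
        _ = X := by rw [← Real.rpow_add hX0]; norm_num
    have e3 := (hX1 X (by omega)).le
    rw [e1, ← mul_assoc]
    exact mul_le_mul e3 e2 (by positivity) (by positivity)
  have t3 : |δ * (((Icc 1 X).filter (fun n : ℕ => ⌊(n : ℝ) ^ c⌋ ≡ a [ZMOD q])).card : ℝ) - δ * ((X : ℝ) / q)| ≤
      ε / 2 * (X / q) := by
    rw [← mul_sub, abs_mul, abs_of_nonneg h0]
    have := abs_nonneg ((((Icc 1 X).filter (fun n : ℕ => ⌊(n : ℝ) ^ c⌋ ≡ a [ZMOD q])).card : ℝ) - (X : ℝ) / q)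
    nlinarith
  have := abs_sub_le (cntc s c q a S X : ℝ)
    (δ * (((Icc 1 X).filter (fun n : ℕ => ⌊(n : ℝ) ^ c⌋ ≡ a [ZMOD q])).card : ℝ)) (δ * ((X : ℝ) / q))
  linarith

end Pool.Agent.Helper69K9.PS
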