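import Pool.Agent.Helper69K9.PS.Main
import Pool.Agent.Y965.PS.Conv
import Pool.Agent.Helper82K9.PM5

/-! Invariant sets along the sequences `⌊n ^ c⌋` in progressions, for the `3x+d` maps. -/

set_option autoImplicit false

namespace Pool.Agent.Helper69K9.PS

open Finset Filter Topology Pool.Agent.H499R2.ND Pool.Agent.W41 Pool.Agent.W36.FD Pool.Agent.Helper82K9.GK
open Pool.Agent.Helper82K9.PM Pool.Agent.Y965.PS
open Pool.Agent.H469R2.NK (e norm_e e_add conj_e)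
open Pool.Agent.Results.MP_7f88e4_nt.ResidueClasses (Rel)
open Pool.Agent.W41.FU (EE ee)

theorem conv_ww {c x : ℝ} (hc : 1 ≤ c) (hx : 1 - x = 1 / c) (X : ℕ) (G : ℤ → ℝ) :
    ∑ n ∈ Icc 1 X, G ⌊(n : ℝ) ^ c⌋ - ∑ m ∈ Icc 1 ⌊(X : ℝ) ^ c⌋₊, (((m : ℝ) + 1) ^ (1 / c) - (m : ℝ) ^ (1 / c)) * G m
      = ∑ m ∈ Icc 1 ⌊(X : ℝ) ^ c⌋₊, G m * ww (1 - x) m := by
  rw [conv hc X G, ← sum_sub_distrib]
  apply sum_congr rfl
  intro m _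
  unfold ww
  rw [hx]
  ring

theorem par {c : ℝ} (hc : 1 < c) (hc' : c < 101 / 100) : ∃ x : ℝ, 0 < x ∧ x < 1 / 101 ∧ 1 - x = 1 / c := by
  have hc0 : 0 < c := by linarith
  refine ⟨1 - 1 / c, ?_, ?_, by ring⟩
  · have : 1 / c < 1 := by rw [div_lt_one hc0]; exact hc
    linarith
  · have : 100 / 101 < 1 / c := by rw [div_lt_div_iff₀ (by norm_num) hc0]; linarith
    linarith

theorem pow_M {c x : ℝ} (hc : 1 < c) (hx : 1 - x = 1 / c) (hx1 : x < 1 / 101) {X : ℕ} (hX : 1 ≤ X) :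
    (⌊(X : ℝ) ^ c⌋₊ : ℝ) ^ (1 - x - 1 / 4000) ≤ (X : ℝ) ^ (1 - 1 / 4000 : ℝ) := by
  have hc0 : 0 < c := by linarith
  have hX1 : (1 : ℝ) ≤ X := by exact_mod_cast hX
  have h4 : (⌊(X : ℝ) ^ c⌋₊ : ℝ) ≤ (X : ℝ) ^ c := Nat.floor_le (by positivity)
  calc (⌊(X : ℝ) ^ c⌋₊ : ℝ) ^ (1 - x - 1 / 4000) ≤ ((X : ℝ) ^ c) ^ (1 - x - 1 / 4000) :=
        Real.rpow_le_rpow (Nat.cast_nonneg _) h4 (by linarith)
    _ = (X : ℝ) ^ (c * (1 - x - 1 / 4000)) := by rw [← Real.rpow_mul (by positivity)]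
    _ ≤ (X : ℝ) ^ (1 - 1 / 4000 : ℝ) := by
        apply Real.rpow_le_rpow_of_exponent_le hX1
        have e : c * (1 - x - 1 / 4000) = 1 - c / 4000 := by
          rw [hx]; field_simp
        rw [e]; linarith

theorem M_pos {c : ℝ} (hc : 1 < c) {X : ℕ} (hX : 1 ≤ X) : 1 ≤ ⌊(X : ℝ) ^ c⌋₊ := by
  apply Nat.le_floor
  push_cast
  exact Real.one_le_rpow (by exact_mod_cast hX) (by linarith)

/-- the iterate used is at most the `j`-th if `j ≥ log X` -/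
theorem time_le {c : ℝ} (hc : 1 < c) (hc' : c < 101 / 100) {X j : ℕ} (hX : 1 ≤ X) (hj : Real.log X ≤ j) :
    5 * ⌊3 * Real.log (⌊(X : ℝ) ^ c⌋₊ : ℝ) / 16⌋₊ ≤ j := by
  have hX1 : (1 : ℝ) ≤ X := by exact_mod_cast hX
  have h1 : (⌊(X : ℝ) ^ c⌋₊ : ℝ) ≤ (X : ℝ) ^ c := Nat.floor_le (by positivity)
  have h0 : (1 : ℝ) ≤ ⌊(X : ℝ) ^ c⌋₊ := by exact_mod_cast M_pos hc hX
  have h2 : Real.log (⌊(X : ℝ) ^ c⌋₊ : ℝ) ≤ c * Real.log X := by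
    rw [← Real.log_rpow (by linarith)]
    exact Real.log_le_log (by linarith) h1
  have h3 : 0 ≤ Real.log X := Real.log_nonneg hX1
  have h4 : ((5 * ⌊3 * Real.log (⌊(X : ℝ) ^ c⌋₊ : ℝ) / 16⌋₊ : ℕ) : ℝ) ≤ j := by
    push_cast
    have h5 : (⌊3 * Real.log (⌊(X : ℝ) ^ c⌋₊ : ℝ) / 16⌋₊ : ℝ) ≤ 3 * Real.log (⌊(X : ℝ) ^ c⌋₊ : ℝ) / 16 :=
      Nat.floor_le (by have := Real.log_nonneg h0; positivity)
    nlinarith
  exact_mod_cast h4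

variable {d : ℤ}

open Classical in
/-- transfer in progressions, for functions of the orbit after the time `log X`, uniformly in `d` -/
theorem trans_at {c : ℝ} (hc : 1 < c) (hc' : c < 101 / 100) : ∃ K : ℝ, 0 ≤ K ∧
    ∀ d : ℤ, d % 2 = 1 → ∀ X j : ℕ, 1 ≤ X → Real.log X ≤ j → ∀ F : ℤ → ℝ, SyncAt d j F → ∀ q : ℕ, 1 ≤ q → ∀ a : ℤ,
      |∑ n ∈ Icc 1 X, (if ⌊(n : ℝ) ^ c⌋ ≡ a [ZMOD q] then F ⌊(n : ℝ) ^ c⌋ else 0)
        - ∑ m ∈ Icc 1 ⌊(X : ℝ) ^ c⌋₊, (((m : ℝ) + 1) ^ (1 / c) - (m : ℝ) ^ (1 / c)) * (if (m : ℤ) ≡ a [ZMOD q] then F m else 0)|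
        ≤ K * (d : ℝ) ^ 2 * (X : ℝ) ^ (1 - 1 / 4000 : ℝ) := by
  obtain ⟨x, hx0, hx1, hx⟩ := par hc hc'
  obtain ⟨C, hC, H⟩ := main_ap hx0 hx1
  refine ⟨C, by linarith, fun d hd2 X j hX hj F hF q hq a => ?_⟩
  rw [conv_ww hc.le hx X (fun y : ℤ => if y ≡ a [ZMOD q] then F y else 0)]
  have h1 := H d hd2 _ (M_pos hc hX) q hq a F (hF.mono (time_le hc hc' hX hj))
  have e1 : ∑ m ∈ Icc 1 ⌊(X : ℝ) ^ c⌋₊, (if (m : ℤ) ≡ a [ZMOD q] then F m else 0) * ww (1 - x) m =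
      ∑ m ∈ Icc 1 ⌊(X : ℝ) ^ c⌋₊, (if (m : ℤ) ≡ a [ZMOD q] then F m * ww (1 - x) m else 0) := by
    apply sum_congr rfl
    intro m _
    split_ifs <;> ring
  rw [e1]
  exact h1.trans (mul_le_mul_of_nonneg_left (pow_M hc hx hx1 hX) (by positivity))

/-- transfer with linear phases, for functions of the orbit after the time `log X`, uniformly in `d` -/
theorem trans_phase {c : ℝ} (hc : 1 < c) (hc' : c < 101 / 100) : ∃ K : ℝ, 0 ≤ K ∧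
    ∀ d : ℤ, d % 2 = 1 → ∀ X j : ℕ, 1 ≤ X → Real.log X ≤ j → ∀ F : ℤ → ℝ, SyncAt d j F → ∀ θ : ℝ,
      ‖∑ n ∈ Icc 1 X, (F ⌊(n : ℝ) ^ c⌋ : ℂ) * e (θ * (⌊(n : ℝ) ^ c⌋ : ℝ))
        - ∑ m ∈ Icc 1 ⌊(X : ℝ) ^ c⌋₊, (((((m : ℝ) + 1) ^ (1 / c) - (m : ℝ) ^ (1 / c)) * F m : ℝ) : ℂ) * e (θ * m)‖
        ≤ K * (d : ℝ) ^ 2 * (X : ℝ) ^ (1 - 1 / 4000 : ℝ) := by
  obtain ⟨x, hx0, hx1, hx⟩ := par hc hc'
  obtain ⟨C, hC, H⟩ := main_cos hx0 hx1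
  refine ⟨2 * C, by linarith, fun d hd2 X j hX hj F hF θ => ?_⟩
  have him : ∀ t : ℝ, (e t).im = Real.cos (2 * Real.pi * (t + -(1 / 4))) := by
    intro t
    have e1 : (e t).im = Real.sin (2 * Real.pi * t) := by
      unfold e
      rw [Complex.exp_ofReal_mul_I_im]
    rw [e1, ← Real.cos_sub_pi_div_two]; congr 1; ring
  have hre : ∀ t : ℝ, (e t).re = Real.cos (2 * Real.pi * (t + 0)) := by
    intro t
    rw [re_e, add_zero]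
  have key : ∀ b : ℝ, |∑ n ∈ Icc 1 X, F ⌊(n : ℝ) ^ c⌋ * Real.cos (2 * Real.pi * (θ * (⌊(n : ℝ) ^ c⌋ : ℝ) + b))
      - ∑ m ∈ Icc 1 ⌊(X : ℝ) ^ c⌋₊, (((m : ℝ) + 1) ^ (1 / c) - (m : ℝ) ^ (1 / c)) * (F m * Real.cos (2 * Real.pi * (θ * m + b)))|
      ≤ C * (d : ℝ) ^ 2 * (X : ℝ) ^ (1 - 1 / 4000 : ℝ) := by
    intro b
    have h0 := conv_ww hc.le hx X (fun y : ℤ => F y * Real.cos (2 * Real.pi * (θ * (y : ℝ) + b)))
    simp only [Int.cast_natCast] at h0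
    rw [h0]
    exact (H d hd2 _ (M_pos hc hX) θ b F (hF.mono (time_le hc hc' hX hj))).trans
      (mul_le_mul_of_nonneg_left (pow_M hc hx hx1 hX) (by positivity))
  refine (Complex.norm_le_abs_re_add_abs_im _).trans ?_
  have h1 := key 0
  have h2 := key (-(1 / 4))
  rw [Complex.sub_re, Complex.sub_im, Complex.re_sum, Complex.im_sum, Complex.re_sum, Complex.im_sum]
  simp only [Complex.re_ofReal_mul, Complex.im_ofReal_mul, hre, him, mul_assoc] at h1 h2 ⊢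
  linarith

open Classical in
/-- transfer in progressions, for synchronous functions -/
theorem trans_ap (hd2 : d % 2 = 1) {c : ℝ} (hc : 1 < c) (hc' : c < 101 / 100) : ∃ K : ℝ, 0 ≤ K ∧
    ∀ F : ℤ → ℝ, Sync d F → ∀ q : ℕ, 1 ≤ q → ∀ a : ℤ, ∀ X : ℕ, 1 ≤ X →
      |∑ n ∈ Icc 1 X, (if ⌊(n : ℝ) ^ c⌋ ≡ a [ZMOD q] then F ⌊(n : ℝ) ^ c⌋ else 0)
        - ∑ m ∈ Icc 1 ⌊(X : ℝ) ^ c⌋₊, (((m : ℝ) + 1) ^ (1 / c) - (m : ℝ) ^ (1 / c)) * (if (m : ℤ) ≡ a [ZMOD q] then F m else 0)|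
        ≤ K * (X : ℝ) ^ (1 - 1 / 4000 : ℝ) := by
  obtain ⟨K, hK, H⟩ := trans_at hc hc'
  exact ⟨K * (d : ℝ) ^ 2, by positivity, fun F hF q hq a X hX =>
    H d hd2 X ⌈Real.log X⌉₊ hX (Nat.le_ceil _) F (syncAt_of hF _) q hq a⟩

theorem sync_phi {d : ℤ} (hd : d % 2 = 1) {s : ℤ} (hs : s = 1 ∨ s = -1) {S : Set ℤ} {φ : ℤ → ℝ} (hφ : IsPhi d s S φ) :
    Sync (s * d) (fun x => φ (s * x)) := by
  refine ⟨fun x => ?_, fun j x y h => ?_⟩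
  · have := hφ.1 (s * x)
    rw [abs_le]; constructor <;> linarith
  · dsimp only
    have h' : (Pool.Agent.H499R2.CO.Tz (s * d))^[j] x = (Pool.Agent.H499R2.CO.Tz (s * d))^[j] y := h
    rw [← phi_iter hd hs hφ j x, ← phi_iter hd hs hφ j y, h']

/-- the size of `(M + 1) ^ γ` -/
theorem size_M {c : ℝ} (hc : 1 < c) (X : ℕ) : (X : ℝ) ≤ ((⌊(X : ℝ) ^ c⌋₊ : ℝ) + 1) ^ (1 / c) ∧
    ((⌊(X : ℝ) ^ c⌋₊ : ℝ) + 1) ^ (1 / c) ≤ X + 1 := by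
  have hc0 : 0 < c := by linarith
  have hXpos : (0 : ℝ) ≤ X := Nat.cast_nonneg _
  have hcγ : ∀ y : ℝ, 0 ≤ y → (y ^ c) ^ (1 / c) = y := by
    intro y hy
    rw [← Real.rpow_mul hy, mul_one_div, div_self hc0.ne', Real.rpow_one]
  constructor
  · rw [← hcγ X hXpos]
    have h := (Nat.lt_floor_add_one ((X : ℝ) ^ c)).le
    rw [hcγ X hXpos]
    calc (X : ℝ) = ((X : ℝ) ^ c) ^ (1 / c) := (hcγ X hXpos).symm
      _ ≤ _ := Real.rpow_le_rpow (by positivity) h (by positivity)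
  · have h6 : (⌊(X : ℝ) ^ c⌋₊ : ℝ) ≤ (X : ℝ) ^ c := Nat.floor_le (by positivity)
    have h7 := pow_gap hc.le hXpos
    calc ((⌊(X : ℝ) ^ c⌋₊ : ℝ) + 1) ^ (1 / c) ≤ (((X : ℝ) + 1) ^ c) ^ (1 / c) :=
          Real.rpow_le_rpow (by positivity) (by linarith) (by positivity)
      _ = X + 1 := hcγ _ (by positivity)

/-- the number of the `n ≤ X` with `⌊n ^ c⌋ ≡ a` modulo `q` and `s ⌊n ^ c⌋ ∈ S` -/
noncomputable def cntc (s : ℤ) (c : ℝ) (q : ℕ) (a : ℤ) (S : Set ℤ) (X : ℕ) : ℕ :=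
  {n : ℕ | 1 ≤ n ∧ n ≤ X ∧ ⌊(n : ℝ) ^ c⌋ ≡ a [ZMOD q] ∧ s * ⌊(n : ℝ) ^ c⌋ ∈ S}.ncard

open Classical in
theorem cntc_eq (s : ℤ) (c : ℝ) (q : ℕ) (a : ℤ) (S : Set ℤ) (X : ℕ) :
    (cntc s c q a S X : ℝ) = ∑ n ∈ Icc 1 X, (if ⌊(n : ℝ) ^ c⌋ ≡ a [ZMOD q] then
      (fun x : ℤ => if s * x ∈ S then (1 : ℝ) else 0) ⌊(n : ℝ) ^ c⌋ else 0) := by
  unfold cntc
  have e1 : {n : ℕ | 1 ≤ n ∧ n ≤ X ∧ ⌊(n : ℝ) ^ c⌋ ≡ a [ZMOD q] ∧ s * ⌊(n : ℝ) ^ c⌋ ∈ S} =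
      (((((Icc 1 X).filter (fun n : ℕ => ⌊(n : ℝ) ^ c⌋ ≡ a [ZMOD q])).filter
        (fun n : ℕ => s * ⌊(n : ℝ) ^ c⌋ ∈ S)) : Finset ℕ) : Set ℕ) := by
    ext n
    simp only [Set.mem_ofPred_eq, coe_filter, mem_Icc, mem_filter, and_assoc]
  rw [e1, Set.ncard_coe_finset, ← sum_filter]
  simp only
  rw [sum_boole]

open Classical in
/-- the density along the sequence -/
theorem dens_ps (hd6 : d % 6 = 1 ∨ d % 6 = 5) {c : ℝ} (hc : 1 < c) (hc' : c < 101 / 100) {s : ℤ} (hs : s = 1 ∨ s = -1)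
    {ε : ℝ} (hε : 0 < ε) :
    ∃ θ : ℝ, 0 < θ ∧ ∃ X₀ : ℕ, 1 ≤ X₀ ∧ ∀ S : Set ℤ, Inv d S → ∀ φ : ℤ → ℝ, IsPhi d s S φ →
    ∀ X : ℕ, X₀ ≤ X → ∀ q : ℕ, 1 ≤ q → (q : ℝ) ≤ (X : ℝ) ^ θ → ∀ a : ℤ,
      |(cntc s c q a S X : ℝ) - ∑ n ∈ (Icc 1 X).filter (fun n : ℕ => ⌊(n : ℝ) ^ c⌋ ≡ a [ZMOD q]), φ (s * ⌊(n : ℝ) ^ c⌋)| ≤
        ε * ((X : ℝ) / q) := by
  have hd : Odd d := Int.odd_iff.2 (by omega)
  have hd2 : d % 2 = 1 := by omega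
  have hsd : (s * d) % 2 = 1 := by rcases hs with rfl | rfl <;> omega
  have hc0 : 0 < c := by linarith
  obtain ⟨K, hK, H⟩ := trans_ap hsd hc hc'
  obtain ⟨θ1, hθ1, N0, HN⟩ := all_mod hd6 hs (show 0 < ε / 4 by positivity)
  obtain ⟨K', hK'⟩ : ∃ K' : ℝ, K' = 2 * K + (N0 + 2 + ε / 4) := ⟨_, rfl⟩
  have hlim : Tendsto (fun X : ℕ => K' * (X : ℝ) ^ (-(1 / 8000) : ℝ)) atTop (𝓝 0) := by
    have h1 := (tendsto_rpow_neg_atTop (show (0 : ℝ) < 1 / 8000 by norm_num)).comp tendsto_natCast_atTop_atTop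
    have h2 := h1.const_mul K'
    rw [mul_zero] at h2
    exact h2
  obtain ⟨X1, hX1⟩ := (hlim.eventually (gt_mem_nhds (show (0 : ℝ) < ε / 2 by positivity))).exists_forall_of_atTop
  refine ⟨min (θ1 / 4) (1 / 8000), lt_min (by positivity) (by norm_num), X1 + 1, by omega, ?_⟩
  intro S hS φ hφ X hX q hq hqX a
  have hXR : (1 : ℝ) ≤ X := by exact_mod_cast (by omega : 1 ≤ X)
  have hX0 : (0 : ℝ) < X := by linarith
  have hq0 : (0 : ℝ) < q := by exact_mod_cast hq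
  have hq1R : (1 : ℝ) ≤ q := by exact_mod_cast hq
  have hq1 : (q : ℝ) ≤ (X : ℝ) ^ (θ1 / 4) := hqX.trans (Real.rpow_le_rpow_of_exponent_le hXR (min_le_left _ _))
  have hq2 : (q : ℝ) ≤ (X : ℝ) ^ (1 / 8000 : ℝ) := hqX.trans (Real.rpow_le_rpow_of_exponent_le hXR (min_le_right _ _))
  set γ : ℝ := 1 / c with hγ
  have hγ0 : 0 < γ := by positivity
  have hγ1 : γ < 1 := by rw [hγ, div_lt_one hc0]; exact hc
  set M := ⌊(X : ℝ) ^ c⌋₊ with hM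
  -- the two transfers
  have t1 := H _ (sync_inv hd hs hS) q hq a X (by omega)
  have t2 := H _ (sync_phi hd2 hs hφ) q hq a X (by omega)
  rw [← cntc_eq] at t1
  have e2 : ∑ n ∈ Icc 1 X, (if ⌊(n : ℝ) ^ c⌋ ≡ a [ZMOD q] then (fun x => φ (s * x)) ⌊(n : ℝ) ^ c⌋ else 0) =
      ∑ n ∈ (Icc 1 X).filter (fun n : ℕ => ⌊(n : ℝ) ^ c⌋ ≡ a [ZMOD q]), φ (s * ⌊(n : ℝ) ^ c⌋) := by
    rw [sum_filter]
  rw [e2] at t2
  -- the sums over the integers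
  set f : ℕ → ℝ := fun m => if (m : ℤ) ≡ a [ZMOD q] then ((if s * (m : ℤ) ∈ S then (1 : ℝ) else 0) - φ (s * (m : ℤ))) else 0 with hf
  have hfabs : ∀ m, |f m| ≤ if (m : ℤ) ≡ a [ZMOD q] then 1 else 0 := by
    intro m
    rw [hf]
    dsimp only
    have := hφ.1 (s * (m : ℤ))
    split_ifs
    · rw [abs_le]; constructor <;> linarith
    · rw [abs_le]; constructor <;> linarith
    · simp
  have hsum : ∀ m : ℕ, ∑ k ∈ Icc 1 m, f k = ((S ∩ Sifted s 0 m q (s * a) ∅).ncard : ℝ) - ∑ᶠ n ∈ Sifted s 0 m q (s * a) ∅, φ n := by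
    intro m
    rw [sifted_ncard hs, sifted_finsum hs, ← sum_sub_distrib, sum_filter]
  have hcardS : ∀ m : ℕ, ((Sifted s 0 m q (s * a) ∅).ncard : ℝ) ≤ m / q + 1 := by
    intro m
    have h1 := sifted_ncard hs m q a Set.univ
    rw [Set.univ_inter] at h1
    rw [h1]
    simp only [Set.mem_univ, if_true, sum_const, nsmul_eq_mul, mul_one]
    exact card_class_le m q hq a
  have htriv : ∀ m : ℕ, |∑ k ∈ Icc 1 m, f k| ≤ m / q + 1 := by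
    intro m
    refine (abs_sum_le_sum_abs _ _).trans ((sum_le_sum fun k _ => hfabs k).trans ?_)
    rw [← sum_filter, sum_const, nsmul_eq_mul, mul_one]
    exact card_class_le m q hq a
  have hX4 : (1 : ℝ) ≤ (X : ℝ) ^ (1 / 4 : ℝ) := Real.one_le_rpow hXR (by norm_num)
  have habs : ∀ m : ℕ, |∑ k ∈ Icc 1 m, f k - 0 * m| ≤ (ε / 4 / q) * m + (N0 + (X : ℝ) ^ (1 / 4 : ℝ) + 1 + ε / 4) := by
    intro m
    rw [zero_mul, sub_zero]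
    have hm0 : (0 : ℝ) ≤ m := Nat.cast_nonneg _
    by_cases hbig : N0 ≤ m ∧ (X : ℝ) ^ (1 / 4 : ℝ) ≤ m
    · have hqm : (q : ℝ) ≤ (m : ℝ) ^ θ1 := by
        refine hq1.trans ?_
        calc (X : ℝ) ^ (θ1 / 4) = ((X : ℝ) ^ (1 / 4 : ℝ)) ^ θ1 := by
              rw [← Real.rpow_mul hX0.le]; congr 1; ring
          _ ≤ (m : ℝ) ^ θ1 := Real.rpow_le_rpow (by positivity) hbig.2 hθ1.le
      have h1 := HN S hS φ hφ m hbig.1 0 (Nat.zero_le _) q hq hqm ∅ (by simp) (s * a)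
      rw [← hsum m] at h1
      refine h1.trans ((mul_le_mul_of_nonneg_left (hcardS m) (by positivity)).trans ?_)
      have e3 : ε / 4 * (m / q + 1) = (ε / 4 / q) * m + ε / 4 := by field_simp
      rw [e3]
      have : (0 : ℝ) ≤ N0 := Nat.cast_nonneg _
      linarith
    · have h1 : (m : ℝ) ≤ N0 + (X : ℝ) ^ (1 / 4 : ℝ) := by
        rcases not_and_or.1 hbig with h | h
        · push Not at h
          have : (m : ℝ) ≤ N0 := by exact_mod_cast h.le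
          linarith
        · push Not at h
          have : (0 : ℝ) ≤ N0 := Nat.cast_nonneg _
          linarith
      have h2 : (m : ℝ) / q ≤ m := div_le_self hm0 hq1R
      have h3 := htriv m
      have h4 : 0 ≤ (ε / 4 / q) * m := by positivity
      linarith
  have hab := Pool.Agent.Y965.PS.abel hγ0 hγ1 (by positivity : 0 ≤ ε / 4 / q)
    (by positivity : 0 ≤ (N0 : ℝ) + (X : ℝ) ^ (1 / 4 : ℝ) + 1 + ε / 4) habs M
  rw [zero_mul, sub_zero] at hab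
  have hsplit : ∑ m ∈ Icc 1 M, f m * ell γ m =
      ∑ m ∈ Icc 1 M, (((m : ℝ) + 1) ^ γ - (m : ℝ) ^ γ) * (if (m : ℤ) ≡ a [ZMOD q] then (fun x : ℤ => if s * x ∈ S then (1 : ℝ) else 0) m else 0) -
      ∑ m ∈ Icc 1 M, (((m : ℝ) + 1) ^ γ - (m : ℝ) ^ γ) * (if (m : ℤ) ≡ a [ZMOD q] then (fun x => φ (s * x)) (m : ℤ) else 0) := by
    rw [← sum_sub_distrib]
    apply sum_congr rfl
    intro m _
    rw [hf]
    unfold ell
    dsimp only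
    split_ifs <;> ring
  have hMX := (size_M hc X).2
  rw [← hγ, ← hM] at hMX
  have h5 : (ε / 4 / q) * ((M : ℝ) + 1) ^ γ ≤ ε / 2 * (X / q) := by
    calc (ε / 4 / q) * ((M : ℝ) + 1) ^ γ ≤ (ε / 4 / q) * (X + 1) := mul_le_mul_of_nonneg_left hMX (by positivity)
      _ ≤ (ε / 4 / q) * (2 * X) := mul_le_mul_of_nonneg_left (by linarith) (by positivity)
      _ = _ := by field_simp; ring
  have hpow : (1 : ℝ) ≤ (X : ℝ) ^ (1 - 1 / 4000 : ℝ) := Real.one_le_rpow hXR (by norm_num)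
  have h6 : (N0 : ℝ) + (X : ℝ) ^ (1 / 4 : ℝ) + 1 + ε / 4 ≤ (N0 + 2 + ε / 4) * (X : ℝ) ^ (1 - 1 / 4000 : ℝ) := by
    have h7 : (X : ℝ) ^ (1 / 4 : ℝ) ≤ (X : ℝ) ^ (1 - 1 / 4000 : ℝ) := Real.rpow_le_rpow_of_exponent_le hXR (by norm_num)
    have h8 : (0 : ℝ) ≤ N0 := Nat.cast_nonneg _
    nlinarith
  have h9 : K' * (X : ℝ) ^ (1 - 1 / 4000 : ℝ) ≤ ε / 2 * (X / q) := by
    have e1 : (X : ℝ) ^ (1 - 1 / 4000 : ℝ) = (X : ℝ) ^ (-(1 / 8000) : ℝ) * (X : ℝ) ^ (1 - 1 / 8000 : ℝ) := by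
      rw [← Real.rpow_add hX0]; norm_num
    have e2 : (X : ℝ) ^ (1 - 1 / 8000 : ℝ) ≤ X / q := by
      rw [le_div_iff₀ hq0]
      calc (X : ℝ) ^ (1 - 1 / 8000 : ℝ) * q ≤ (X : ℝ) ^ (1 - 1 / 8000 : ℝ) * (X : ℝ) ^ (1 / 8000 : ℝ) := by gcongr
        _ = X := by rw [← Real.rpow_add hX0]; norm_num
    have e3 := (hX1 X (by omega)).le
    rw [e1, ← mul_assoc]
    exact mul_le_mul e3 e2 (by positivity) (by positivity)
  rw [hK'] at h9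
  rw [hsplit] at hab
  rw [abs_le] at t1 t2 hab ⊢
  constructor <;> linarith

/-- the sequence with linear phases: an invariant set minus its local density is orthogonal to all phases -/
theorem fourier_ps (hd6 : d % 6 = 1 ∨ d % 6 = 5) {c : ℝ} (hc : 1 < c) (hc' : c < 101 / 100) {s : ℤ} (hs : s = 1 ∨ s = -1)
    {ε : ℝ} (hε : 0 < ε) :
    ∃ X₀ : ℕ, 1 ≤ X₀ ∧ ∀ S : Set ℤ, Inv d S → ∀ φ : ℤ → ℝ, IsPhi d s S φ → ∀ X : ℕ, X₀ ≤ X → ∀ α : ℝ,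
      ‖∑ n ∈ Icc 1 X, ((balD s S φ ⌊(n : ℝ) ^ c⌋ : ℝ) : ℂ) * e (α * (⌊(n : ℝ) ^ c⌋ : ℝ))‖ ≤ ε * X := by
  have hd : Odd d := Int.odd_iff.2 (by omega)
  have hd2 : d % 2 = 1 := by omega
  have hsd : (s * d) % 2 = 1 := by rcases hs with rfl | rfl <;> omega
  have hc0 : 0 < c := by linarith
  obtain ⟨K, hK, H⟩ := trans_phase hc hc'
  obtain ⟨ε', hε', hε'1, hε'2⟩ : ∃ ε' : ℝ, 0 < ε' ∧ ε' ≤ 1 ∧ 8 * ε' ≤ ε :=
    ⟨min 1 (ε / 8), lt_min one_pos (by positivity), min_le_left _ _, by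
      have := min_le_right 1 (ε / 8); linarith⟩
  obtain ⟨N0, hN0, HN⟩ := fourier_inv hd6 hs hε' hε'1
  obtain ⟨K', hK'⟩ : ∃ K' : ℝ, K' = 2 * (K * ((s * d : ℤ) : ℝ) ^ 2) + 2 * N0 := ⟨_, rfl⟩
  have hlim : Tendsto (fun X : ℕ => K' * (X : ℝ) ^ (-(1 / 4000) : ℝ)) atTop (𝓝 0) := by
    have h1 := (tendsto_rpow_neg_atTop (show (0 : ℝ) < 1 / 4000 by norm_num)).comp tendsto_natCast_atTop_atTop
    have h2 := h1.const_mul K'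
    rw [mul_zero] at h2
    exact h2
  obtain ⟨X1, hX1⟩ := (hlim.eventually (gt_mem_nhds (show (0 : ℝ) < ε / 2 by positivity))).exists_forall_of_atTop
  refine ⟨X1 + 1, by omega, ?_⟩
  intro S hS φ hφ X hX α
  have hXR : (1 : ℝ) ≤ X := by exact_mod_cast (by omega : 1 ≤ X)
  have hX0 : (0 : ℝ) < X := by linarith
  have hγ0 : 0 < 1 / c := by positivity
  have hγ1 : 1 / c < 1 := by rw [div_lt_one hc0]; exact hc
  set M := ⌊(X : ℝ) ^ c⌋₊ with hM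
  classical
  have t1 := H (s * d) hsd X ⌈Real.log X⌉₊ (by omega) (Nat.le_ceil _) _ (syncAt_of (sync_inv hd hs hS) _) α
  have t2 := H (s * d) hsd X ⌈Real.log X⌉₊ (by omega) (Nat.le_ceil _) _ (syncAt_of (sync_phi hd2 hs hφ) _) α
  set f : ℤ → ℝ := balD s S φ with hf
  have hfe : ∀ x : ℤ, f x = (if s * x ∈ S then 1 else 0) - φ (s * x) := fun x => by
    rw [hf]; unfold balD ind; rfl
  have habs : ∀ x : ℤ, |f x| ≤ 1 := fun x => by rw [hf]; exact balD_abs hφ x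
  -- the sum over the integers
  have hphase : ∀ (b : ℝ) (m : ℕ), |∑ k ∈ Icc 1 m, f k * Real.cos (2 * Real.pi * (α * k + b)) - 0 * m| ≤ ε' * m + N0 := by
    intro b m
    rw [zero_mul, sub_zero]
    have hm0 : (0 : ℝ) ≤ m := Nat.cast_nonneg _
    have hN00 : (0 : ℝ) ≤ N0 := Nat.cast_nonneg _
    rcases le_or_gt N0 m with hm | hm
    · have h1 := HN S hS φ hφ m hm α
      have h2 : (e b * EE (balD s S φ) m α).re = ∑ k ∈ Icc 1 m, f k * Real.cos (2 * Real.pi * (α * k + b)) := by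
        unfold EE
        rw [mul_sum, Complex.re_sum]
        apply sum_congr rfl
        intro k _
        have h3 : e b * (((balD s S φ (k : ℤ) : ℝ) : ℂ) * ee α (k : ℤ)) = ((f k : ℝ) : ℂ) * e (α * k + b) := by
          rw [add_comm, e_add]
          have h4 : ee α (k : ℤ) = e (α * k) := by
            unfold ee Pool.Agent.H469R2.NK.e
            congr 1
            push_cast
            ring
          rw [h4, hf]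
          ring
        rw [h3, Complex.re_ofReal_mul, re_e]
      rw [← h2]
      refine (Complex.abs_re_le_norm _).trans ?_
      rw [norm_mul, norm_e, one_mul]
      linarith
    · refine (abs_sum_le_sum_abs _ _).trans ?_
      have h1 : ∀ k ∈ Icc 1 m, |f k * Real.cos (2 * Real.pi * (α * k + b))| ≤ 1 := by
        intro k _
        rw [abs_mul]
        exact mul_le_one₀ (habs _) (abs_nonneg _) (Real.abs_cos_le_one _)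
      refine (sum_le_sum h1).trans ?_
      rw [sum_const, Nat.card_Icc, Nat.add_sub_cancel, nsmul_eq_mul, mul_one]
      have : (m : ℝ) ≤ N0 := by exact_mod_cast hm.le
      have : 0 ≤ ε' * m := by positivity
      linarith
  have hMX := (size_M hc X).2
  rw [← hM] at hMX
  have hab : ∀ b : ℝ, |∑ m ∈ Icc 1 M, f m * Real.cos (2 * Real.pi * (α * m + b)) * ell (1 / c) m| ≤ ε' * (X + 1) + N0 := by
    intro b
    have h1 := Pool.Agent.Y965.PS.abel hγ0 hγ1 hε'.le (Nat.cast_nonneg N0) (hphase b) M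
    rw [zero_mul, sub_zero] at h1
    refine h1.trans ?_
    have := mul_le_mul_of_nonneg_left hMX hε'.le
    linarith
  have him : ∀ t : ℝ, (e t).im = Real.cos (2 * Real.pi * (t + -(1 / 4))) := by
    intro t
    have e1 : (e t).im = Real.sin (2 * Real.pi * t) := by
      unfold Pool.Agent.H469R2.NK.e
      rw [Complex.exp_ofReal_mul_I_im]
    rw [e1, ← Real.cos_sub_pi_div_two]; congr 1; ring
  have hre : ∀ t : ℝ, (e t).re = Real.cos (2 * Real.pi * (t + 0)) := by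
    intro t
    rw [re_e, add_zero]
  have hint : ‖∑ m ∈ Icc 1 M, (((((m : ℝ) + 1) ^ (1 / c) - (m : ℝ) ^ (1 / c)) * f m : ℝ) : ℂ) * e (α * m)‖ ≤
      2 * (ε' * (X + 1) + N0) := by
    refine (Complex.norm_le_abs_re_add_abs_im _).trans ?_
    have e1 : (∑ m ∈ Icc 1 M, (((((m : ℝ) + 1) ^ (1 / c) - (m : ℝ) ^ (1 / c)) * f m : ℝ) : ℂ) * e (α * m)).re =
        ∑ m ∈ Icc 1 M, f m * Real.cos (2 * Real.pi * (α * m + 0)) * ell (1 / c) m := by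
      rw [Complex.re_sum]
      apply sum_congr rfl
      intro m _
      rw [Complex.re_ofReal_mul, hre]
      unfold ell
      ring
    have e2 : (∑ m ∈ Icc 1 M, (((((m : ℝ) + 1) ^ (1 / c) - (m : ℝ) ^ (1 / c)) * f m : ℝ) : ℂ) * e (α * m)).im =
        ∑ m ∈ Icc 1 M, f m * Real.cos (2 * Real.pi * (α * m + -(1 / 4))) * ell (1 / c) m := by
      rw [Complex.im_sum]
      apply sum_congr rfl
      intro m _
      rw [Complex.im_ofReal_mul, him]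
      unfold ell
      ring
    rw [e1, e2]
    linarith [hab 0, hab (-(1 / 4))]
  -- the difference
  have hd1 : ∑ n ∈ Icc 1 X, ((f ⌊(n : ℝ) ^ c⌋ : ℝ) : ℂ) * e (α * (⌊(n : ℝ) ^ c⌋ : ℝ)) =
      ∑ n ∈ Icc 1 X, (((fun x : ℤ => if s * x ∈ S then (1 : ℝ) else 0) ⌊(n : ℝ) ^ c⌋ : ℝ) : ℂ) * e (α * (⌊(n : ℝ) ^ c⌋ : ℝ)) -
      ∑ n ∈ Icc 1 X, (((fun x => φ (s * x)) ⌊(n : ℝ) ^ c⌋ : ℝ) : ℂ) * e (α * (⌊(n : ℝ) ^ c⌋ : ℝ)) := by
    rw [← sum_sub_distrib]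
    apply sum_congr rfl
    intro n _
    rw [hfe]
    push_cast
    ring
  have hd2' : ∑ m ∈ Icc 1 M, (((((m : ℝ) + 1) ^ (1 / c) - (m : ℝ) ^ (1 / c)) * f m : ℝ) : ℂ) * e (α * m) =
      ∑ m ∈ Icc 1 M, (((((m : ℝ) + 1) ^ (1 / c) - (m : ℝ) ^ (1 / c)) * (fun x : ℤ => if s * x ∈ S then (1 : ℝ) else 0) m : ℝ) : ℂ) * e (α * m) -
      ∑ m ∈ Icc 1 M, (((((m : ℝ) + 1) ^ (1 / c) - (m : ℝ) ^ (1 / c)) * (fun x => φ (s * x)) (m : ℤ) : ℝ) : ℂ) * e (α * m) := by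
    rw [← sum_sub_distrib]
    apply sum_congr rfl
    intro n _
    rw [hfe]
    push_cast
    ring
  have hfin : ∀ A B C D : ℂ, A - B = (A - C) - (B - D) + (C - D) := fun A B C D => by ring
  rw [hd1, hfin _ _ (∑ m ∈ Icc 1 M, (((((m : ℝ) + 1) ^ (1 / c) - (m : ℝ) ^ (1 / c)) * (fun x : ℤ => if s * x ∈ S then (1 : ℝ) else 0) m : ℝ) : ℂ) * e (α * m))
    (∑ m ∈ Icc 1 M, (((((m : ℝ) + 1) ^ (1 / c) - (m : ℝ) ^ (1 / c)) * (fun x => φ (s * x)) (m : ℤ) : ℝ) : ℂ) * e (α * m)), ← hd2']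
  refine (norm_add_le _ _).trans ?_
  have hns := norm_sub_le (∑ n ∈ Icc 1 X, (((fun x : ℤ => if s * x ∈ S then (1 : ℝ) else 0) ⌊(n : ℝ) ^ c⌋ : ℝ) : ℂ) * e (α * (⌊(n : ℝ) ^ c⌋ : ℝ)) -
    ∑ m ∈ Icc 1 M, (((((m : ℝ) + 1) ^ (1 / c) - (m : ℝ) ^ (1 / c)) * (fun x : ℤ => if s * x ∈ S then (1 : ℝ) else 0) m : ℝ) : ℂ) * e (α * m))
    (∑ n ∈ Icc 1 X, (((fun x => φ (s * x)) ⌊(n : ℝ) ^ c⌋ : ℝ) : ℂ) * e (α * (⌊(n : ℝ) ^ c⌋ : ℝ)) -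
    ∑ m ∈ Icc 1 M, (((((m : ℝ) + 1) ^ (1 / c) - (m : ℝ) ^ (1 / c)) * (fun x => φ (s * x)) (m : ℤ) : ℝ) : ℂ) * e (α * m))
  have hpow : (1 : ℝ) ≤ (X : ℝ) ^ (1 - 1 / 4000 : ℝ) := Real.one_le_rpow hXR (by norm_num)
  have h9 : K' * (X : ℝ) ^ (1 - 1 / 4000 : ℝ) ≤ ε / 2 * X := by
    have e1 : (X : ℝ) ^ (1 - 1 / 4000 : ℝ) = (X : ℝ) ^ (-(1 / 4000) : ℝ) * X := by
      rw [sub_eq_neg_add, Real.rpow_add hX0, Real.rpow_one]
    rw [e1, ← mul_assoc]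
    exact mul_le_mul_of_nonneg_right (hX1 X (by omega)).le hX0.le
  have h10 : 2 * (N0 : ℝ) ≤ 2 * N0 * (X : ℝ) ^ (1 - 1 / 4000 : ℝ) :=
    le_mul_of_one_le_right (by positivity) hpow
  have h11 : 2 * (ε' * ((X : ℝ) + 1)) ≤ ε / 2 * X := by nlinarith
  rw [hK'] at h9
  linarith

open Classical in
/-- the number of the `n` in a class, from below -/
theorem class_ge (hd2 : d % 2 = 1) {c : ℝ} (hc : 1 < c) (hc' : c < 101 / 100) : ∃ K : ℝ, 0 ≤ K ∧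
    ∀ Q : ℕ, 1 ≤ Q → ∀ b : ℤ, ∀ X : ℕ, 1 ≤ X →
      (X : ℝ) / Q - K * (X : ℝ) ^ (1 - 1 / 4000 : ℝ) ≤
        (((Icc 1 X).filter (fun n : ℕ => ⌊(n : ℝ) ^ c⌋ ≡ b [ZMOD Q])).card : ℝ) := by
  have hc0 : 0 < c := by linarith
  obtain ⟨K, hK, H⟩ := trans_ap hd2 hc hc'
  refine ⟨K + 2, by linarith, fun Q hQ b X hX => ?_⟩
  have hXR : (1 : ℝ) ≤ X := by exact_mod_cast hX
  have hQ1 : (1 : ℝ) ≤ Q := by exact_mod_cast hQ
  have hγ0 : 0 < 1 / c := by positivity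
  have hγ1 : 1 / c < 1 := by rw [div_lt_one hc0]; exact hc
  have t1 := H _ (sync_one (d := d)) Q hQ b X hX
  have e1 : ∑ n ∈ Icc 1 X, (if ⌊(n : ℝ) ^ c⌋ ≡ b [ZMOD Q] then (fun _ : ℤ => (1 : ℝ)) ⌊(n : ℝ) ^ c⌋ else 0) =
      (((Icc 1 X).filter (fun n : ℕ => ⌊(n : ℝ) ^ c⌋ ≡ b [ZMOD Q])).card : ℝ) := by
    simp only
    rw [sum_boole]
  rw [e1] at t1
  have hab := Pool.Agent.Y965.PS.abel hγ0 hγ1 (a := fun m : ℕ => if (m : ℤ) ≡ b [ZMOD Q] then (1 : ℝ) else 0)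
    (δ := 1 / (Q : ℝ)) (ε := 0) (C := 1) le_rfl zero_le_one (by
      intro m
      rw [sum_boole, zero_mul, zero_add]
      have h1 := card_class_le m Q hQ b
      have h2 := card_class_ge m Q hQ b
      have e : 1 / (Q : ℝ) * m = m / Q := by ring
      rw [e, abs_le]
      constructor <;> linarith) ⌊(X : ℝ) ^ c⌋₊
  have e2 : ∑ m ∈ Icc 1 ⌊(X : ℝ) ^ c⌋₊, (((m : ℝ) + 1) ^ (1 / c) - (m : ℝ) ^ (1 / c)) *
      (if (m : ℤ) ≡ b [ZMOD Q] then (fun _ : ℤ => (1 : ℝ)) (m : ℤ) else 0) =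
      ∑ m ∈ Icc 1 ⌊(X : ℝ) ^ c⌋₊, (fun m : ℕ => if (m : ℤ) ≡ b [ZMOD Q] then (1 : ℝ) else 0) m * ell (1 / c) m := by
    apply sum_congr rfl
    intro m _
    unfold ell
    dsimp only
    ring
  rw [e2] at t1
  have h1 := (abs_le.1 t1).1
  have h2 := (abs_le.1 hab).1
  have h3 := (size_M hc X).1
  have h4 : (X : ℝ) / Q - 1 ≤ 1 / (Q : ℝ) * (((⌊(X : ℝ) ^ c⌋₊ : ℝ) + 1) ^ (1 / c) - 1) := by
    have h5 : 1 / (Q : ℝ) * ((X : ℝ) - 1) ≤ 1 / (Q : ℝ) * (((⌊(X : ℝ) ^ c⌋₊ : ℝ) + 1) ^ (1 / c) - 1) :=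
      mul_le_mul_of_nonneg_left (by linarith) (by positivity)
    have h6 : 1 / (Q : ℝ) ≤ 1 := by rw [div_le_one (by linarith)]; exact hQ1
    have h7 : 1 / (Q : ℝ) * ((X : ℝ) - 1) = X / Q - 1 / Q := by ring
    linarith
  have hpow : (1 : ℝ) ≤ (X : ℝ) ^ (1 - 1 / 4000 : ℝ) := Real.one_le_rpow hXR (by norm_num)
  have e5 : (K + 2) * (X : ℝ) ^ (1 - 1 / 4000 : ℝ) = K * (X : ℝ) ^ (1 - 1 / 4000 : ℝ) + 2 * (X : ℝ) ^ (1 - 1 / 4000 : ℝ) := by ring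
  rw [e5]
  linarith

open Classical in
/-- the main term from below -/
theorem main_termc (hd6 : d % 6 = 1 ∨ d % 6 = 5) {c : ℝ} (hc : 1 < c) (hc' : c < 101 / 100) : ∃ K : ℝ, 0 ≤ K ∧
    ∀ s : ℤ, (s = 1 ∨ s = -1) → ∀ (S : Set ℤ) (φ : ℤ → ℝ), IsPhi d s S φ → ∀ (x0 : ℤ) (q : ℕ), 1 ≤ q → ∀ a : ℤ,
      Rel (Int.gcd q d) (s * a) x0 → ∀ X : ℕ, 1 ≤ X →
      φ x0 * ((X : ℝ) / (q * d.natAbs) - K * (X : ℝ) ^ (1 - 1 / 4000 : ℝ)) ≤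
        ∑ n ∈ (Icc 1 X).filter (fun n : ℕ => ⌊(n : ℝ) ^ c⌋ ≡ a [ZMOD q]), φ (s * ⌊(n : ℝ) ^ c⌋) := by
  obtain ⟨K, hK, H⟩ := class_ge (d := d) (by omega) hc hc'
  refine ⟨K, hK, fun s hs S φ hφ x0 q hq a ha X hX => ?_⟩
  have hss : s * s = 1 := by rcases hs with rfl | rfl <;> norm_num
  have hD1 : 1 ≤ d.natAbs := by omega
  obtain ⟨i, j, hij⟩ := ha
  obtain ⟨n0, h01, h02⟩ : ∃ n0 : ℤ, n0 ≡ s * a [ZMOD q] ∧ d ∣ n0 - 2 ^ i * 3 ^ j * x0 := by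
    obtain ⟨r, hr⟩ := hij.dvd
    have hb := Int.gcd_eq_gcd_ab (q : ℤ) d
    refine ⟨s * a + q * (Int.gcdA q d * r), ?_, ?_⟩
    · exact (Int.modEq_iff_dvd.2 ⟨-(Int.gcdA q d * r), by ring⟩)
    · refine ⟨-(Int.gcdB q d * r), ?_⟩
      have h1 : s * a = 2 ^ i * 3 ^ j * x0 - (Int.gcd (q : ℤ) d : ℤ) * r := by linarith
      rw [h1, hb]; ring
  have hφn : ∀ n : ℤ, n ≡ n0 [ZMOD d] → φ n = φ x0 := by
    intro n hn
    have h1 : d ∣ n - 2 ^ i * 3 ^ j * x0 := by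
      have := dvd_add (Int.modEq_iff_dvd.1 hn.symm) h02
      rwa [sub_add_sub_cancel] at this
    rw [phi_dvd hφ h1, phi_mul hφ]
  have hq0 : 1 ≤ q * d.natAbs := Nat.mul_pos (by omega) (by omega)
  obtain ⟨Q, hQ⟩ : ∃ Q : ℕ, Q = q * d.natAbs := ⟨_, rfl⟩
  have hQR : (q : ℝ) * d.natAbs = Q := by rw [hQ]; push_cast; rfl
  have hqQ : (q : ℤ) ∣ (Q : ℤ) := by exact_mod_cast (by rw [hQ]; exact Dvd.intro _ rfl : q ∣ Q)
  have hdQ : d ∣ (Q : ℤ) := (Int.dvd_natAbs_self).trans (by exact_mod_cast (by rw [hQ]; exact Dvd.intro_left _ rfl : d.natAbs ∣ Q))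
  rw [← hQ] at hq0
  have h1 := H Q hq0 (s * n0) X hX
  rw [hQR]
  have hφ0 : 0 ≤ φ x0 := (hφ.1 x0).1
  refine (mul_le_mul_of_nonneg_left h1 hφ0).trans ?_
  rw [mul_comm, ← nsmul_eq_mul, ← sum_const]
  have hmem : ∀ n : ℤ, n ≡ s * n0 [ZMOD Q] → n ≡ a [ZMOD q] ∧ φ (s * n) = φ x0 := by
    intro n hn
    constructor
    · have h2 : n ≡ s * n0 [ZMOD q] := hn.of_dvd hqQ
      have h3 : s * n0 ≡ s * (s * a) [ZMOD q] := h01.mul_left s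
      rw [← mul_assoc, hss, one_mul] at h3
      exact h2.trans h3
    · apply hφn
      have h2 : n ≡ s * n0 [ZMOD d] := hn.of_dvd hdQ
      have h3 := h2.mul_left s
      rwa [← mul_assoc s s, hss, one_mul] at h3
  have hle : ∑ n ∈ (Icc 1 X).filter (fun n : ℕ => ⌊(n : ℝ) ^ c⌋ ≡ s * n0 [ZMOD Q]), φ x0 =
      ∑ n ∈ (Icc 1 X).filter (fun n : ℕ => ⌊(n : ℝ) ^ c⌋ ≡ s * n0 [ZMOD Q]), φ (s * ⌊(n : ℝ) ^ c⌋) := by
    apply sum_congr rfl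
    intro n hn
    rw [mem_filter] at hn
    exact ((hmem _ hn.2).2).symm
  rw [hle]
  apply sum_le_sum_of_subset_of_nonneg
  · intro n hn
    rw [mem_filter] at hn ⊢
    exact ⟨hn.1, (hmem _ hn.2).1⟩
  · intro n _ _
    exact (hφ.1 _).1

end Pool.Agent.Helper69K9.PS
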