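import Pool.Agent.Helper82K9.PM4
import Pool.Agent.Y965.PS.Fin

/-! Exponential sums with the phases `n (m + i) ^ γ + θ m` over the integers with a typical orbit under
the `3x+d` map, `d` any odd number. -/

set_option autoImplicit false

namespace Pool.Agent.Helper69K9.PS

open Finset Pool.Agent.H469R2.NK Pool.Agent.Y965.PS Pool.Agent.Y55.DS Pool.Agent.Helper82K9.PM

variable {d : ℤ}

/-- a bounded function that is constant on the fibres of the `t`-th iterate of the map -/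
def SyncAt (d : ℤ) (t : ℕ) (F : ℤ → ℝ) : Prop :=
  (∀ x, |F x| ≤ 1) ∧ ∀ x y : ℤ, (Tz d)^[t] x = (Tz d)^[t] y → F x = F y

theorem SyncAt.mono {t t' : ℕ} (h : t ≤ t') {F : ℤ → ℝ} (hF : SyncAt d t' F) : SyncAt d t F := by
  refine ⟨hF.1, fun x y hxy => hF.2 x y ?_⟩
  obtain ⟨r, rfl⟩ := Nat.exists_eq_add_of_le h
  rw [add_comm, Function.iterate_add_apply, Function.iterate_add_apply, hxy]

theorem syncAt_of {F : ℤ → ℝ} (hF : Sync d F) (t : ℕ) : SyncAt d t F := ⟨hF.1, hF.2 t⟩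

theorem half_at {t : ℕ} {F : ℤ → ℝ} (hF : SyncAt d t F) : SyncAt d t (fun x => (1 + F x) / 2) := by
  refine ⟨fun x => ?_, fun x y h => by simp only [hF.2 x y h]⟩
  have := abs_le.1 (hF.1 x)
  rw [abs_le]; constructor <;> linarith

theorem one_at (t : ℕ) : SyncAt d t (fun _ => 1) := ⟨fun x => by simp, fun _ _ _ => rfl⟩

open Classical in
/-- THE DISPERSION INEQUALITY for a fixed number of odd steps -/
theorem dispA (hd2 : d % 2 = 1) (t a : ℕ) {R0 R : ℝ} (hR0 : 0 ≤ R0) (hRR : 2 * (d.natAbs * R0) + 1 ≤ R) (N1 N : ℕ) {F : ℤ → ℝ} (hF : SyncAt d t F)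
    {z : ℕ → ℂ} (hz1 : ∀ m, ‖z m‖ ≤ 1) {β : ℕ → ℝ} (hβ : ∀ h, 0 ≤ β h)
    (hz : ∀ h : ℕ, 1 ≤ h → (h : ℝ) ≤ R * 2 ^ t / 3 ^ a → ∀ m0 J : ℕ, N1 < m0 →
      (∀ j < J, m0 + 2 ^ t * j + h ≤ N) →
      ‖∑ j ∈ range J, z (m0 + 2 ^ t * j) * (starRingEnd ℂ) (z (m0 + 2 ^ t * j + h))‖ ≤ β h) :
    ‖∑ m ∈ GA d t a R0 N1 N, (F m : ℂ) * z m‖ ^ 2 ≤ (N * (3 ^ a / 2 ^ t) + R) *
      (N + 2 * (2 ^ t * ∑ h ∈ Icc 1 ⌊R * 2 ^ t / 3 ^ a⌋₊, β h)) := by
  have hDR : 0 ≤ (d.natAbs : ℝ) * R0 := by positivity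
  have hR : 0 ≤ R := by linarith
  set G := GA d t a R0 N1 N with hG
  set κ : ℕ → ℤ := fun m => (Tz d)^[t] (m : ℤ) with hκ
  set I := G.image κ with hI
  set A : ℤ → ℂ := fun p => ∑ m ∈ G.filter (fun m => κ m = p), z m with hA
  -- step 1
  have h1 : ‖∑ m ∈ G, (F m : ℂ) * z m‖ ≤ ∑ p ∈ I, ‖A p‖ := by
    rw [← sum_fiberwise_of_maps_to (s := G) (t := I) (g := κ) (fun m hm => mem_image_of_mem _ hm)]
    refine (norm_sum_le _ _).trans (sum_le_sum fun p hp => ?_)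
    rw [hI, mem_image] at hp
    obtain ⟨m0, hm0, hp0⟩ := hp
    have e : ∑ m ∈ G.filter (fun m => κ m = p), (F m : ℂ) * z m = (F m0 : ℂ) * A p := by
      rw [hA]
      dsimp only
      rw [mul_sum]
      apply sum_congr rfl
      intro m hm
      rw [mem_filter] at hm
      have h2 : κ m = κ m0 := by rw [hm.2, hp0]
      rw [hF.2 m m0 h2]
    rw [e, norm_mul, Complex.norm_real, Real.norm_eq_abs]
    have := hF.1 m0
    nlinarith [norm_nonneg (A p)]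
  -- step 2
  have h2 : (∑ p ∈ I, ‖A p‖) ^ 2 ≤ I.card * ∑ p ∈ I, ‖A p‖ ^ 2 := sq_sum_le_card_mul_sum_sq
  -- step 3
  have h3 : ((∑ p ∈ I, ‖A p‖ ^ 2 : ℝ) : ℂ) = ∑ p ∈ PA d t a R0 N1 N, z p.1 * (starRingEnd ℂ) (z p.2) := by
    have e1 : ∑ p ∈ PA d t a R0 N1 N, z p.1 * (starRingEnd ℂ) (z p.2)
        = ∑ m ∈ G, ∑ m' ∈ G.filter (fun m' => κ m = κ m'), z m * (starRingEnd ℂ) (z m') := by
      unfold PA
      rw [sum_filter, sum_product]
      exact sum_congr rfl fun m _ => (sum_filter _ _).symm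
    rw [e1, ← sum_fiberwise_of_maps_to (s := G) (t := I) (g := κ) (fun m hm => mem_image_of_mem _ hm)]
    push_cast
    apply sum_congr rfl
    intro p _
    have e2 : ∑ m ∈ G.filter (fun m => κ m = p), ∑ m' ∈ G.filter (fun m' => κ m = κ m'), z m * (starRingEnd ℂ) (z m')
        = ∑ m ∈ G.filter (fun m => κ m = p), ∑ m' ∈ G.filter (fun m' => κ m' = p), z m * (starRingEnd ℂ) (z m') := by
      apply sum_congr rfl
      intro m hm
      rw [mem_filter] at hm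
      rw [hm.2]
      apply sum_congr _ fun _ _ => rfl
      ext m'
      rw [mem_filter, mem_filter]
      constructor
      · rintro ⟨a, b⟩; exact ⟨a, b.symm⟩
      · rintro ⟨a, b⟩; exact ⟨a, b.symm⟩
    rw [e2, ← sum_mul_sum, ← map_sum]
    rw [← Complex.ofReal_pow, ← Complex.normSq_eq_norm_sq, Complex.mul_conj]
  -- step 4
  set D : ℂ := ∑ p ∈ (PA d t a R0 N1 N).filter (fun p => p.1 < p.2), z p.1 * (starRingEnd ℂ) (z p.2) with hD
  have h4 : ∑ p ∈ PA d t a R0 N1 N, z p.1 * (starRingEnd ℂ) (z p.2)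
      = ∑ p ∈ (PA d t a R0 N1 N).filter (fun p => p.1 = p.2), z p.1 * (starRingEnd ℂ) (z p.2)
        + (D + (starRingEnd ℂ) D) := by
    rw [← sum_filter_add_sum_filter_not (PA d t a R0 N1 N) (fun p => p.1 = p.2)]
    congr 1
    rw [← sum_filter_add_sum_filter_not ((PA d t a R0 N1 N).filter fun p => ¬ p.1 = p.2) (fun p => p.1 < p.2)]
    congr 1
    · rw [hD, filter_filter]
      apply sum_congr _ fun _ _ => rfl
      apply filter_congr
      intro p _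
      omega
    · rw [hD, map_sum, filter_filter]
      refine sum_bij' (fun p _ => (p.2, p.1)) (fun p _ => (p.2, p.1)) ?_ ?_ ?_ ?_ ?_
      · intro p hp
        rw [mem_filter, mem_PA] at hp ⊢
        exact ⟨⟨⟨hp.1.1.2, hp.1.1.1⟩, hp.1.2.symm⟩, by dsimp only; omega⟩
      · intro p hp
        rw [mem_filter, mem_PA] at hp ⊢
        refine ⟨⟨⟨hp.1.1.2, hp.1.1.1⟩, hp.1.2.symm⟩, ?_⟩
        dsimp only
        have := hp.2
        omega
      · intro p _; rfl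
      · intro p _; rfl
      · intro p _
        dsimp only
        rw [map_mul, Complex.conj_conj, mul_comm]
  have h5 : ‖∑ p ∈ (PA d t a R0 N1 N).filter (fun p => p.1 = p.2), z p.1 * (starRingEnd ℂ) (z p.2)‖ ≤ N := by
    refine (norm_sum_le _ _).trans ?_
    have h6 : ∀ p ∈ (PA d t a R0 N1 N).filter (fun p => p.1 = p.2), ‖z p.1 * (starRingEnd ℂ) (z p.2)‖ ≤ 1 := by
      intro p _
      rw [norm_mul, RCLike.norm_conj]
      have a := hz1 p.1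
      have b := hz1 p.2
      nlinarith [norm_nonneg (z p.1), norm_nonneg (z p.2)]
    refine (sum_le_sum h6).trans ?_
    rw [sum_const, nsmul_eq_mul, mul_one]
    have h7 : ((PA d t a R0 N1 N).filter (fun p => p.1 = p.2)) ⊆ (Icc 1 N).image fun m => (m, m) := by
      intro p hp
      rw [mem_filter, mem_PA, mem_GA] at hp
      rw [mem_image]
      refine ⟨p.1, ?_, ?_⟩
      · rw [mem_Icc]; have := hp.1.1.1.1; omega
      · ext
        · rfl
        · exact hp.2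
    have h8 := (card_le_card h7).trans card_image_le
    rw [Nat.card_Icc, Nat.add_sub_cancel] at h8
    exact_mod_cast h8
  have h6 : ‖D‖ ≤ 2 ^ t * ∑ h ∈ Icc 1 ⌊R * 2 ^ t / 3 ^ a⌋₊, β h := by
    rw [hD, upper_pairsD hd2 t a (R := R) (by linarith), mul_sum]
    refine (norm_sum_le _ _).trans (sum_le_sum fun h hh => ?_)
    rw [mem_Icc] at hh
    have hh2 : (h : ℝ) ≤ R * 2 ^ t / 3 ^ a := (Nat.le_floor_iff (by positivity)).1 hh.2
    exact pr_sum t a R0 N1 N h (hz h hh.1 hh2) (hβ h)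
  have h7 : ∑ p ∈ I, ‖A p‖ ^ 2 ≤ N + 2 * (2 ^ t * ∑ h ∈ Icc 1 ⌊R * 2 ^ t / 3 ^ a⌋₊, β h) := by
    have h8 : ‖((∑ p ∈ I, ‖A p‖ ^ 2 : ℝ) : ℂ)‖ = ∑ p ∈ I, ‖A p‖ ^ 2 := by
      rw [Complex.norm_real, Real.norm_eq_abs, abs_of_nonneg (sum_nonneg fun _ _ => by positivity)]
    rw [← h8, h3, h4]
    refine (norm_add_le _ _).trans ?_
    have h9 := norm_add_le D ((starRingEnd ℂ) D)
    rw [RCLike.norm_conj] at h9
    linarith
  calc _ ≤ (∑ p ∈ I, ‖A p‖) ^ 2 := pow_le_pow_left₀ (norm_nonneg _) h1 2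
    _ ≤ I.card * ∑ p ∈ I, ‖A p‖ ^ 2 := h2
    _ ≤ _ := mul_le_mul (image_cardD hd2 t a hR0 hRR N1 N) h7 (sum_nonneg fun _ _ => by positivity) (by positivity)

/-- a fixed number of odd terms -/
theorem En_sqD (hd2 : d % 2 = 1) {γ : ℝ} (hγ0 : 0 < γ) (hγ1 : γ < 1) (u a : ℕ) (ha : 2 * u ≤ a) (ha' : a ≤ 3 * u)
    {R0 R : ℝ} (hR0 : 0 ≤ R0) (hRR : 2 * (d.natAbs * R0) + 1 ≤ R) (hR : 1 ≤ R) (N1 N : ℕ)
    (hN1 : 1 ≤ N1) (hN1N : N1 ≤ N) (hq : 2 ^ (5 * u) ≤ N) (hH : R * (32 / 9) ^ u ≤ N) (n i : ℕ) (hn : 1 ≤ n) (hi : i ≤ 1)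
    (hsm : n * R * (1024 / 9) ^ u * (N1 : ℝ) ^ (γ - 2) ≤ 2) (θ : ℝ) {F : ℤ → ℝ} (hF : SyncAt d (5 * u) F) :
    ‖∑ m ∈ GA d (5 * u) a R0 N1 N, (F m : ℂ) * e (n * ((m : ℝ) + i) ^ γ + θ * m)‖ ^ 2 ≤ (N * (27 / 32) ^ u + R) *
      (N + 4 / (γ * (1 - γ)) * (3 * N : ℝ) ^ (2 - γ) * (1 + Real.log N)) := by
  have a3 : 0 < γ * (1 - γ) := mul_pos hγ0 (by linarith)
  have hNpos : (0 : ℝ) < N := by
    have : 0 < N := by omega
    exact_mod_cast this
  have hn0 : (0 : ℝ) < n := by exact_mod_cast hn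
  have hN1pos : (0 : ℝ) < N1 := by exact_mod_cast hN1
  set q : ℝ := 2 ^ (5 * u) with hqdef
  have hq0 : 0 < q := by positivity
  have hqN : q ≤ N := by rw [hqdef]; exact_mod_cast hq
  have h32 : q = 32 ^ u := by rw [hqdef, pow_mul]; norm_num
  set Y2 : ℝ := 3 * N with hY2
  have hY2pos : 0 < Y2 := by positivity
  have hY2p : 0 < Y2 ^ (γ - 2) := Real.rpow_pos_of_pos hY2pos _
  have h10 : (3 : ℝ) ^ (2 * u) = 9 ^ u := by rw [pow_mul]; norm_num
  have h27 : (3 : ℝ) ^ (3 * u) = 27 ^ u := by rw [pow_mul]; norm_num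
  have hw1 : (3 : ℝ) ^ a / q ≤ (27 / 32) ^ u := by
    rw [div_pow, h32, ← h27]
    have : (3 : ℝ) ^ a ≤ 3 ^ (3 * u) := pow_le_pow_right₀ (by norm_num) ha'
    gcongr
  have hw2 : R * q / 3 ^ a ≤ R * (32 / 9) ^ u := by
    rw [div_pow, h32, ← mul_div_assoc, ← h10]
    have : (3 : ℝ) ^ (2 * u) ≤ 3 ^ a := pow_le_pow_right₀ (by norm_num) ha
    gcongr
  set β : ℕ → ℝ := fun h => 2 / (n * (q * h * (γ * (1 - γ)) * Y2 ^ (γ - 2))) with hβ
  have hβ0 : ∀ h, 0 ≤ β h := fun h => by rw [hβ]; positivity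
  have key := dispA hd2 (5 * u) a (R := R) hR0 hRR N1 N hF (z := fun m : ℕ => e (n * ((m : ℝ) + i) ^ γ + θ * m))
    (fun m => (norm_e _).le) hβ0 (by
      intro h hh1 hh2' m0 J hm0 hJ
      have hh2 : (h : ℝ) ≤ R * (32 / 9) ^ u := hh2'.trans hw2
      have hh0 : (0 : ℝ) < h := by exact_mod_cast hh1
      have e1 : ∀ j : ℕ, e (n * (((m0 + 2 ^ (5 * u) * j : ℕ) : ℝ) + i) ^ γ + θ * ((m0 + 2 ^ (5 * u) * j : ℕ) : ℝ)) *
          (starRingEnd ℂ) (e (n * (((m0 + 2 ^ (5 * u) * j + h : ℕ) : ℝ) + i) ^ γ + θ * ((m0 + 2 ^ (5 * u) * j + h : ℕ) : ℝ)))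
          = e (n * (((m0 : ℝ) + i + q * j) ^ γ - ((m0 : ℝ) + i + q * j + h) ^ γ)) * e (-(θ * h)) := by
        intro j
        rw [conj_e, ← e_add, ← e_add]
        congr 1
        have f1 : (((m0 + 2 ^ (5 * u) * j : ℕ) : ℝ) + i) = (m0 : ℝ) + i + q * j := by
          rw [hqdef]; push_cast; ring
        have f2 : (((m0 + 2 ^ (5 * u) * j + h : ℕ) : ℝ) + i) = (m0 : ℝ) + i + q * j + h := by
          rw [hqdef]; push_cast; ring
        rw [f1, f2]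
        push_cast
        ring
      rw [sum_congr rfl fun j _ => e1 j, ← sum_mul, norm_mul, norm_e, mul_one]
      refine kl_phase hγ0 hγ1 hn0 hq0 hh0 hN1pos J (Y2 := Y2) ?_ ?_ ?_ ?_
      · have : (N1 : ℝ) ≤ m0 := by exact_mod_cast hm0.le
        have : (0 : ℝ) ≤ i := Nat.cast_nonneg i
        linarith
      · intro j hj
        have h1 : ((m0 + 2 ^ (5 * u) * j + h : ℕ) : ℝ) ≤ N := by exact_mod_cast hJ j hj
        push_cast at h1
        rw [← hqdef] at h1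
        have h2 : (i : ℝ) ≤ 1 := by exact_mod_cast hi
        have h3 : (1 : ℝ) ≤ N := by exact_mod_cast (by omega : 1 ≤ N)
        rw [hY2]
        linarith
      · have : (N1 : ℝ) ≤ N := by exact_mod_cast hN1N
        rw [hY2]; linarith
      · have h1 : q * (h : ℝ) ≤ R * (1024 / 9) ^ u := by
          calc q * (h : ℝ) ≤ q * (R * (32 / 9) ^ u) := mul_le_mul_of_nonneg_left hh2 hq0.le
            _ = R * (32 ^ u * (32 / 9) ^ u) := by rw [h32]; ring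
            _ = R * (1024 / 9) ^ u := by rw [← mul_pow]; norm_num
        have h2 : γ * (1 - γ) ≤ 1 / 4 := by nlinarith [sq_nonneg (γ - 1 / 2)]
        have h3 : 0 < (N1 : ℝ) ^ (γ - 2) := Real.rpow_pos_of_pos hN1pos _
        calc n * (q * h * (γ * (1 - γ)) * (N1 : ℝ) ^ (γ - 2))
            ≤ n * (R * (1024 / 9) ^ u * (1 / 4) * (N1 : ℝ) ^ (γ - 2)) := by gcongr
          _ = (n * R * (1024 / 9) ^ u * (N1 : ℝ) ^ (γ - 2)) / 4 := by ring
          _ ≤ 2 / 4 := by gcongr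
          _ = 1 / 2 := by norm_num)
  rw [← hqdef] at key
  refine key.trans ?_
  have hlog0 : 0 ≤ Real.log N := Real.log_natCast_nonneg N
  have h1 : ∑ h ∈ Icc 1 ⌊R * q / 3 ^ a⌋₊, β h
      = 2 / (n * (q * (γ * (1 - γ)) * Y2 ^ (γ - 2))) * ∑ h ∈ Icc 1 ⌊R * q / 3 ^ a⌋₊, (1 / (h : ℝ)) := by
    rw [mul_sum]
    apply sum_congr rfl
    intro h hh
    rw [mem_Icc] at hh
    have hh0 : (h : ℝ) ≠ 0 := by
      have : (0 : ℝ) < h := by exact_mod_cast hh.1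
      linarith
    rw [hβ]; dsimp only
    field_simp
  have h2 : ∑ h ∈ Icc 1 ⌊R * q / 3 ^ a⌋₊, (1 / (h : ℝ)) ≤ 1 + Real.log N := by
    refine (harm _).trans ?_
    have h3 : (⌊R * q / 3 ^ a⌋₊ : ℝ) ≤ N := (Nat.floor_le (by positivity)).trans (hw2.trans hH)
    rcases Nat.eq_zero_or_pos ⌊R * q / 3 ^ a⌋₊ with h0 | h0
    · rw [h0]
      simp only [Nat.cast_zero, Real.log_zero]
      linarith
    · have h4 : (0 : ℝ) < ⌊R * q / 3 ^ a⌋₊ := by exact_mod_cast h0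
      linarith [Real.log_le_log h4 h3]
  have h3 : 2 * (q * ∑ h ∈ Icc 1 ⌊R * q / 3 ^ a⌋₊, β h) ≤ 4 / (γ * (1 - γ)) * (3 * N : ℝ) ^ (2 - γ) * (1 + Real.log N) := by
    rw [h1]
    have e2 : (3 * N : ℝ) ^ (2 - γ) = (Y2 ^ (γ - 2))⁻¹ := by
      rw [← hY2, ← Real.rpow_neg hY2pos.le]; congr 1; ring
    rw [e2]
    have h4 : 2 * (q * (2 / (n * (q * (γ * (1 - γ)) * Y2 ^ (γ - 2))) * ∑ h ∈ Icc 1 ⌊R * q / 3 ^ a⌋₊, (1 / (h : ℝ))))
        = (1 / n) * (4 / (γ * (1 - γ)) * (Y2 ^ (γ - 2))⁻¹ * ∑ h ∈ Icc 1 ⌊R * q / 3 ^ a⌋₊, (1 / (h : ℝ))) := by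
      field_simp
      ring
    rw [h4]
    have h5 : (1 : ℝ) / n ≤ 1 := by rw [div_le_one hn0]; exact_mod_cast hn
    have h6 : 0 ≤ ∑ h ∈ Icc 1 ⌊R * q / 3 ^ a⌋₊, (1 / (h : ℝ)) := sum_nonneg fun _ _ => by positivity
    calc _ ≤ 1 * (4 / (γ * (1 - γ)) * (Y2 ^ (γ - 2))⁻¹ * ∑ h ∈ Icc 1 ⌊R * q / 3 ^ a⌋₊, (1 / (h : ℝ))) :=
          mul_le_mul_of_nonneg_right h5 (by positivity)
      _ ≤ _ := by rw [one_mul]; exact mul_le_mul_of_nonneg_left h2 (by positivity)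
  have h7 : (N : ℝ) * (3 ^ a / q) ≤ N * (27 / 32) ^ u := mul_le_mul_of_nonneg_left hw1 hNpos.le
  have h8 : 0 ≤ ∑ h ∈ Icc 1 ⌊R * q / 3 ^ a⌋₊, β h := sum_nonneg fun _ _ => hβ0 _
  apply mul_le_mul (by linarith) (by linarith) (by positivity) (by positivity)

/-- the typical integers, by the number of the odd terms -/
theorem GS_union (u : ℕ) (R0 : ℝ) (N1 N : ℕ) : GS d u R0 N1 N = (Icc (2 * u) (3 * u)).biUnion fun a => GA d (5 * u) a R0 N1 N := by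
  ext m
  rw [mem_GS, mem_biUnion]
  constructor
  · rintro ⟨⟨h1, h2⟩, h3, h4, h5⟩
    refine ⟨ac d (5 * u) m, mem_Icc.2 ⟨h3, h4⟩, ?_⟩
    rw [mem_GA]
    exact ⟨⟨h1, h2⟩, rfl, h5⟩
  · rintro ⟨a, ha, hm⟩
    rw [mem_GA] at hm
    rw [mem_Icc] at ha
    refine ⟨hm.1, ?_⟩
    unfold Good
    rw [hm.2.1]
    exact ⟨ha.1, ha.2, hm.2.2⟩

theorem sum_GS (u : ℕ) (R0 : ℝ) (N1 N : ℕ) (f : ℕ → ℂ) :
    ∑ m ∈ GS d u R0 N1 N, f m = ∑ a ∈ Icc (2 * u) (3 * u), ∑ m ∈ GA d (5 * u) a R0 N1 N, f m := by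
  rw [GS_union, sum_biUnion]
  intro a _ b _ hab
  rw [Function.onFun, Finset.disjoint_left]
  intro m hm hm'
  rw [mem_GA] at hm hm'
  exact hab (hm.2.1.symm.trans hm'.2.1)

/-- the exponential sums over the typical integers -/
theorem En_boundD {x : ℝ} (hx0 : 0 < x) (hx1 : x < 1 / 101) :
    ∃ C : ℝ, 1 ≤ C ∧ ∀ d : ℤ, d % 2 = 1 → ∀ N : ℕ, 100 ≤ Real.log N →
      2 * (d.natAbs : ℝ) + 1 ≤ Real.exp (0.01 * Real.log N) → ∀ n i : ℕ, 1 ≤ n → i ≤ 1 →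
      (n : ℝ) ≤ 2 * Real.exp ((2 * x + 1 / 2000) * Real.log N) → ∀ θ : ℝ, ∀ F : ℤ → ℝ,
      SyncAt d (5 * ⌊3 * Real.log N / 16⌋₊) F →
      ‖∑ m ∈ GS d ⌊3 * Real.log N / 16⌋₊ (Real.exp (0.0125 * Real.log N)) ⌊Real.exp (0.99 * Real.log N)⌋₊ N,
        (F m : ℂ) * e (n * ((m : ℝ) + i) ^ (1 - x) + θ * m)‖
        ≤ C * (Real.log N ^ 2 * Real.exp ((0.98453125 + x / 2) * Real.log N)) := by
  have hγ0 : (0 : ℝ) < 1 - x := by linarith
  have hγ1 : 1 - x < 1 := by linarith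
  have a3 : 0 < (1 - x) * (1 - (1 - x)) := mul_pos hγ0 (by linarith)
  set C1 : ℝ := 1 + 72 / ((1 - x) * (1 - (1 - x))) with hC1
  have hC1p : 1 ≤ C1 := by rw [hC1]; have : 0 < 72 / ((1 - x) * (1 - (1 - x))) := by positivity
                           linarith
  refine ⟨3 * C1, by linarith, ?_⟩
  intro d hd2 N hL hLD n i hn hi hnK θ F hF
  set L := Real.log N with hLdef
  have hDn : (0 : ℝ) ≤ d.natAbs := Nat.cast_nonneg _
  have hNpos : (0 : ℝ) < N := by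
    by_contra h
    have h0 : (N : ℝ) = 0 := le_antisymm (not_lt.1 h) (Nat.cast_nonneg _)
    rw [hLdef, h0, Real.log_zero] at hL
    linarith
  have hexp : Real.exp L = N := Real.exp_log hNpos
  set u := ⌊3 * L / 16⌋₊ with hu
  have hu1 : (u : ℝ) ≤ 3 * L / 16 := Nat.floor_le (by linarith)
  have hu2 : 3 * L / 16 < u + 1 := Nat.lt_floor_add_one _
  set R0 := Real.exp (0.0125 * L) with hR0d
  set R := Real.exp (0.0225 * L) with hR
  have hR01 : 1 ≤ R0 := Real.one_le_exp (by linarith)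
  have hR1 : 1 ≤ R := Real.one_le_exp (by linarith)
  have hRR : 2 * ((d.natAbs : ℝ) * R0) + 1 ≤ R := by
    have e1 : 2 * (d.natAbs : ℝ) + 1 ≤ Real.exp (0.01 * L) := hLD
    have e2 : R = Real.exp (0.01 * L) * R0 := by
      rw [hR, hR0d, ← Real.exp_add]; congr 1; ring
    rw [e2]
    nlinarith
  set N1 := ⌊Real.exp (0.99 * L)⌋₊ with hN1
  have hE99 : 1 ≤ Real.exp (0.99 * L) := Real.one_le_exp (by linarith)
  have hN1a : (N1 : ℝ) ≤ Real.exp (0.99 * L) := Nat.floor_le (by positivity)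
  have hN1b : Real.exp (0.99 * L) < N1 + 1 := Nat.lt_floor_add_one _
  have hN11 : 1 ≤ N1 := Nat.le_floor (by exact_mod_cast hE99)
  have hN11R : (1 : ℝ) ≤ N1 := by exact_mod_cast hN11
  have hN1N : N1 ≤ N := by
    have h1 : (N1 : ℝ) ≤ N := by
      rw [← hexp]; exact hN1a.trans (Real.exp_le_exp.2 (by linarith))
    exact_mod_cast h1
  have hu0 : (0 : ℝ) ≤ u := Nat.cast_nonneg u
  have hq : 2 ^ (5 * u) ≤ N := by
    have h1 : ((2 : ℝ) ^ (5 * u)) ≤ N := by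
      rw [pow_mul, show ((2 : ℝ) ^ 5) = 32 by norm_num, ← hexp]
      refine (pow_exp_le (by norm_num) exp_c4 u).trans (Real.exp_le_exp.2 ?_)
      linarith
    exact_mod_cast h1
  have hH : R * (32 / 9) ^ u ≤ N := by
    have h1 : (32 / 9 : ℝ) ^ u ≤ Real.exp (3.5 * u) := by
      refine (pow_le_pow_left₀ (by norm_num) (by norm_num : (32 / 9 : ℝ) ≤ 32) u).trans ?_
      exact pow_exp_le (by norm_num) exp_c4 u
    calc R * (32 / 9) ^ u ≤ R * Real.exp (3.5 * u) := mul_le_mul_of_nonneg_left h1 (by linarith)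
      _ = Real.exp (0.0225 * L + 3.5 * u) := by rw [hR, Real.exp_add]
      _ ≤ Real.exp L := Real.exp_le_exp.2 (by linarith)
      _ = N := hexp
  have hN1g : (N1 : ℝ) ^ ((1 - x) - 2) ≤ 4 * Real.exp (-(0.99 * (1 + x) * L)) := by
    have h1 : Real.exp (0.99 * L) / 2 ≤ N1 := by linarith
    have h2 : (N1 : ℝ) ^ ((1 - x) - 2) ≤ (Real.exp (0.99 * L) / 2) ^ ((1 - x) - 2) :=
      Real.rpow_le_rpow_of_nonpos (by positivity) h1 (by linarith)
    refine h2.trans ?_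
    rw [Real.div_rpow (by positivity) (by norm_num), ← Real.exp_mul, div_eq_mul_inv, ← Real.rpow_neg (by norm_num), mul_comm]
    have h3 : (2 : ℝ) ^ (-((1 - x) - 2)) ≤ 4 := by
      calc (2 : ℝ) ^ (-((1 - x) - 2)) ≤ (2 : ℝ) ^ (2 : ℝ) := Real.rpow_le_rpow_of_exponent_le (by norm_num) (by linarith)
        _ = 4 := by norm_num
    have h4 : 0.99 * L * ((1 - x) - 2) = -(0.99 * (1 + x) * L) := by ring
    rw [h4]
    exact mul_le_mul_of_nonneg_right h3 (Real.exp_pos _).le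
  have hsm : n * R * (1024 / 9) ^ u * (N1 : ℝ) ^ ((1 - x) - 2) ≤ 2 := by
    have h1 : (1024 / 9 : ℝ) ^ u ≤ Real.exp (4.75 * u) := pow_exp_le (by norm_num) exp_c3 u
    calc n * R * (1024 / 9) ^ u * (N1 : ℝ) ^ ((1 - x) - 2)
        ≤ (2 * Real.exp ((2 * x + 1 / 2000) * L)) * R * Real.exp (4.75 * u) * (4 * Real.exp (-(0.99 * (1 + x) * L))) := by
          gcongr
      _ = 8 * Real.exp ((2 * x + 1 / 2000) * L + 0.0225 * L + 4.75 * u + -(0.99 * (1 + x) * L)) := by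
          rw [hR, Real.exp_add, Real.exp_add, Real.exp_add]; ring
      _ ≤ 8 * Real.exp (-5) := by
          apply mul_le_mul_of_nonneg_left _ (by norm_num)
          apply Real.exp_le_exp.2
          nlinarith
      _ ≤ 2 := by
          have h5 : Real.exp (-5) ≤ 1 / 4 := by
            rw [Real.exp_neg, inv_eq_one_div]
            apply one_div_le_one_div_of_le (by norm_num)
            have := Real.add_one_le_exp (5 : ℝ)
            linarith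
          linarith
  -- the two factors
  have f1 : (N * (27 / 32) ^ u + R) ≤ 3 * Real.exp (0.9690625 * L) := by
    have g1 : (27 / 32 : ℝ) ^ u ≤ Real.exp (-0.165 * u) := pow_exp_le (by norm_num) c1' u
    have g2 : N * (27 / 32 : ℝ) ^ u ≤ 2 * Real.exp (0.9690625 * L) := by
      calc (N : ℝ) * (27 / 32) ^ u ≤ N * Real.exp (-0.165 * u) := mul_le_mul_of_nonneg_left g1 hNpos.le
        _ = Real.exp (L + -0.165 * u) := by rw [Real.exp_add, hexp]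
        _ ≤ Real.exp (0.165 + 0.9690625 * L) := Real.exp_le_exp.2 (by linarith)
        _ = Real.exp 0.165 * Real.exp (0.9690625 * L) := by rw [Real.exp_add]
        _ ≤ 2 * Real.exp (0.9690625 * L) := by
          apply mul_le_mul_of_nonneg_right _ (Real.exp_pos _).le
          exact exp_c1.trans (by norm_num)
    have g3 : R ≤ Real.exp (0.9690625 * L) := Real.exp_le_exp.2 (by linarith)
    linarith
  have f2 : (N + 4 / ((1 - x) * (1 - (1 - x))) * (3 * N : ℝ) ^ (2 - (1 - x)) * (1 + L)) ≤ C1 * L * Real.exp ((1 + x) * L) := by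
    have g1 : (3 * N : ℝ) ^ (2 - (1 - x)) ≤ 9 * Real.exp ((1 + x) * L) := by
      rw [Real.mul_rpow (by norm_num) hNpos.le]
      have g2 : (3 : ℝ) ^ (2 - (1 - x)) ≤ 9 := by
        calc (3 : ℝ) ^ (2 - (1 - x)) ≤ (3 : ℝ) ^ (2 : ℝ) := Real.rpow_le_rpow_of_exponent_le (by norm_num) (by linarith)
          _ = 9 := by norm_num
      have g3 : (N : ℝ) ^ (2 - (1 - x)) = Real.exp ((1 + x) * L) := by
        rw [← hexp, ← Real.exp_mul]; congr 1; ring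
      rw [g3]
      exact mul_le_mul_of_nonneg_right g2 (Real.exp_pos _).le
    have g4 : (N : ℝ) ≤ L * Real.exp ((1 + x) * L) := by
      have : (N : ℝ) ≤ Real.exp ((1 + x) * L) := by
        rw [← hexp]; apply Real.exp_le_exp.2; nlinarith
      nlinarith [Real.exp_pos ((1 + x) * L)]
    have g5 : 4 / ((1 - x) * (1 - (1 - x))) * (3 * N : ℝ) ^ (2 - (1 - x)) * (1 + L)
        ≤ 4 / ((1 - x) * (1 - (1 - x))) * (9 * Real.exp ((1 + x) * L)) * (2 * L) := by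
      have : 1 + L ≤ 2 * L := by linarith
      have h0 : 0 ≤ (3 * N : ℝ) ^ (2 - (1 - x)) := by positivity
      gcongr
    rw [hC1]
    calc _ ≤ L * Real.exp ((1 + x) * L) + 4 / ((1 - x) * (1 - (1 - x))) * (9 * Real.exp ((1 + x) * L)) * (2 * L) :=
          add_le_add g4 g5
      _ = _ := by ring
  have hx2 : (0 : ℝ) ≤ N + 4 / ((1 - x) * (1 - (1 - x))) * (3 * N : ℝ) ^ (2 - (1 - x)) * (1 + L) := by
    have : 0 ≤ 1 + L := by linarith
    positivity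
  set B : ℝ := Real.exp ((0.98453125 + x / 2) * L) with hBdef
  have h4 : 3 * Real.exp (0.9690625 * L) * (C1 * L * Real.exp ((1 + x) * L)) ≤ (3 * C1 * (L * B)) ^ 2 := by
    have e1 : Real.exp (0.9690625 * L) * Real.exp ((1 + x) * L) = B ^ 2 := by
      rw [hBdef, ← Real.exp_add, ← Real.exp_nat_mul]; congr 1; push_cast; ring
    have e2 : 3 * Real.exp (0.9690625 * L) * (C1 * L * Real.exp ((1 + x) * L))
        = 3 * C1 * L * (Real.exp (0.9690625 * L) * Real.exp ((1 + x) * L)) := by ring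
    rw [e2, e1]
    have e3 : (3 * C1 * (L * B)) ^ 2 = (3 * C1 * L) * (3 * C1 * L * B ^ 2) := by ring
    rw [e3]
    have e4 : 0 ≤ 3 * C1 * L * B ^ 2 := by positivity
    have e5 : 1 ≤ 3 * C1 * L := by nlinarith
    nlinarith
  have hone : ∀ a ∈ Icc (2 * u) (3 * u), ‖∑ m ∈ GA d (5 * u) a R0 N1 N, (F m : ℂ) * e (n * ((m : ℝ) + i) ^ (1 - x) + θ * m)‖
      ≤ 3 * C1 * (L * B) := by
    intro a ha
    rw [mem_Icc] at ha
    have key := En_sqD hd2 hγ0 hγ1 u a ha.1 ha.2 (by linarith : 0 ≤ R0) hRR hR1 N1 N hN11 hN1N hq hH n i hn hi hsm θ hF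
    have h3 := key.trans (mul_le_mul f1 f2 hx2 (by positivity))
    exact (pow_le_pow_iff_left₀ (norm_nonneg _) (by positivity) two_ne_zero).1 (h3.trans h4)
  rw [sum_GS]
  refine (norm_sum_le _ _).trans ((sum_le_sum hone).trans ?_)
  rw [sum_const, Nat.card_Icc, nsmul_eq_mul]
  have h5 : 3 * u + 1 - 2 * u = u + 1 := by omega
  rw [h5]
  have h6 : ((u + 1 : ℕ) : ℝ) ≤ L := by push_cast; linarith
  have h7 : 0 ≤ 3 * C1 * (L * B) := by positivity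
  calc ((u + 1 : ℕ) : ℝ) * (3 * C1 * (L * B)) ≤ L * (3 * C1 * (L * B)) := mul_le_mul_of_nonneg_right h6 h7
    _ = 3 * C1 * (L ^ 2 * B) := by ring

end Pool.Agent.Helper69K9.PS
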