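import Pool.Agent.Helper69K9.PS.Dens

/-! Almost all orbits of the numbers `⌊n ^ c⌋` take almost bounded values. -/

set_option autoImplicit false

namespace Pool.Agent.Helper69K9.PS

open Finset Filter Topology Pool.Agent.H499R2.ND Pool.Agent.W41 Pool.Agent.W36.FD Pool.Agent.Helper82K9.GK
open Pool.Agent.Helper82K9.PM Pool.Agent.Y965.PS

/-- an orbit does not fall faster than by the factor two -/
theorem fall {k : ℤ} (hk : k % 2 = 1) (x : ℤ) : ∀ i : ℕ, |x| + |k| ≤ 2 ^ i * (|(Td k)^[i] x| + |k|) := by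
  intro i
  induction i with
  | zero => simp
  | succ i ih =>
    rw [Function.iterate_succ_apply']
    set z := (Td k)^[i] x with hz
    have h1 : |z| + |k| ≤ 2 * (|Td k z| + |k|) := by
      unfold Td
      split_ifs with h
      · have e : z = 2 * (z / 2) := by omega
        have e2 : |z| = 2 * |z / 2| := by
          conv_lhs => rw [e]
          rw [abs_mul]; norm_num
        have := abs_nonneg k
        linarith
      · have e : 3 * z = 2 * ((3 * z + k) / 2) - k := by omega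
        have e2 : 3 * |z| ≤ 2 * |(3 * z + k) / 2| + |k| := by
          calc 3 * |z| = |3 * z| := by rw [abs_mul]; norm_num
            _ = |2 * ((3 * z + k) / 2) - k| := by rw [← e]
            _ ≤ |2 * ((3 * z + k) / 2)| + |k| := abs_sub _ _
            _ = 2 * |(3 * z + k) / 2| + |k| := by rw [abs_mul]; norm_num
        have := abs_nonneg k
        have := abs_nonneg ((3 * z + k) / 2)
        linarith
    calc |x| + |k| ≤ 2 ^ i * (|z| + |k|) := ih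
      _ ≤ 2 ^ i * (2 * (|Td k z| + |k|)) := mul_le_mul_of_nonneg_left h1 (by positivity)
      _ = 2 ^ (i + 1) * (|Td k z| + |k|) := by rw [pow_succ]; ring

/-- the `n ≤ X` such that all terms of the orbit of `s ⌊n ^ c⌋` are larger than `y` -/
noncomputable def high (k s : ℤ) (c : ℝ) (X : ℕ) (y : ℝ) : ℕ :=
  {n : ℕ | 1 ≤ n ∧ n ≤ X ∧ ∀ i : ℕ, y < |(((Td k)^[i] (s * ⌊(n : ℝ) ^ c⌋) : ℤ) : ℝ)|}.ncard

theorem high_fin (k s : ℤ) (c : ℝ) (X : ℕ) (y : ℝ) :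
    {n : ℕ | 1 ≤ n ∧ n ≤ X ∧ ∀ i : ℕ, y < |(((Td k)^[i] (s * ⌊(n : ℝ) ^ c⌋) : ℤ) : ℝ)|}.Finite :=
  (Set.finite_Icc 1 X).subset fun _ hn => ⟨hn.1, hn.2.1⟩

theorem high_mono {k s : ℤ} {c : ℝ} {X : ℕ} {y y' : ℝ} (h : y' ≤ y) : high k s c X y ≤ high k s c X y' := by
  apply Set.ncard_le_ncard _ (high_fin k s c X y')
  rintro n ⟨h1, h2, h3⟩
  exact ⟨h1, h2, fun i => h.trans_lt (h3 i)⟩

open Classical in
/-- the moderate range -/
theorem low_mod {k : ℤ} (hk : k % 2 = 1) {c : ℝ} (hc : 1 < c) (hc' : c < 101 / 100) {c0 C0 : ℝ} (hC0 : 0 < C0)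
    (H0 : ∀ X y : ℝ, 1 ≤ X → 1 ≤ y →
      ({x : ℤ | |(x : ℝ)| ≤ X ∧ ∀ n : ℕ, y < |(((Td k)^[n] x : ℤ) : ℝ)|}.ncard : ℝ) ≤ C0 * X / y ^ c0) :
    ∃ K : ℝ, 0 ≤ K ∧ ∀ s : ℤ, (s = 1 ∨ s = -1) → ∀ X : ℕ, 1 ≤ X → ∀ y : ℝ, 1 ≤ y → y ≤ (X : ℝ) ^ (1 / 10 : ℝ) →
      (high k s c X y : ℝ) ≤ K * (X / y ^ c0) + K * (X : ℝ) ^ (1 - 1 / 4000 : ℝ) := by
  obtain ⟨K, hK, H⟩ := trans_at hc hc'
  refine ⟨2 * C0 + 2 * (1 + |(k : ℝ)|) + K * (k : ℝ) ^ 2, by positivity, ?_⟩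
  intro s hs X hX y hy hyX
  have hss : s * s = 1 := by rcases hs with rfl | rfl <;> norm_num
  have hsk : (s * k) % 2 = 1 := by rcases hs with rfl | rfl <;> omega
  have hc0 : 0 < c := by linarith
  have hXR : (1 : ℝ) ≤ X := by exact_mod_cast hX
  have hX0 : (0 : ℝ) < X := by linarith
  have hγ0 : 0 < 1 / c := by positivity
  have hγ1 : 1 / c < 1 := by rw [div_lt_one hc0]; exact hc
  have hyc : 0 < y ^ c0 := Real.rpow_pos_of_pos (by linarith) _
  set j := ⌈Real.log X⌉₊ with hj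
  set F : ℤ → ℝ := fun x => if ∀ i : ℕ, j ≤ i → y < |(((Td k)^[i] (s * x) : ℤ) : ℝ)| then 1 else 0 with hF
  have hF01 : ∀ x, F x = 0 ∨ F x = 1 := fun x => by rw [hF]; dsimp only; split_ifs <;> simp
  have hF0 : ∀ x, 0 ≤ F x := fun x => by rcases hF01 x with h | h <;> rw [h] <;> norm_num
  have hS : SyncAt (s * k) j F := by
    refine ⟨fun x => by rcases hF01 x with h | h <;> rw [h] <;> norm_num, fun x x' h => ?_⟩
    have h' : (Td (s * k))^[j] x = (Td (s * k))^[j] x' := h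
    have e1 : ∀ x : ℤ, s * (Td (s * k))^[j] x = (Td k)^[j] (s * x) := by
      intro x
      rw [Td_side (Int.odd_iff.2 hk) hs j x, ← mul_assoc, hss, one_mul]
    have e2 : (Td k)^[j] (s * x) = (Td k)^[j] (s * x') := by rw [← e1, ← e1, h']
    have e3 : ∀ i : ℕ, j ≤ i → (Td k)^[i] (s * x) = (Td k)^[i] (s * x') := by
      intro i hi
      obtain ⟨r, rfl⟩ := Nat.exists_eq_add_of_le hi
      rw [add_comm, Function.iterate_add_apply, Function.iterate_add_apply, e2]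
    have e4 : (∀ i : ℕ, j ≤ i → y < |(((Td k)^[i] (s * x) : ℤ) : ℝ)|) ↔
        (∀ i : ℕ, j ≤ i → y < |(((Td k)^[i] (s * x') : ℤ) : ℝ)|) :=
      forall_congr' fun i => forall_congr' fun hi => by rw [e3 i hi]
    rw [hF]
    dsimp only
    simp only [e4]
  have t1 := H (s * k) hsk X j hX (Nat.le_ceil _) F hS 1 le_rfl 0
  -- the count is at most the sum
  have hup : (high k s c X y : ℝ) ≤ ∑ n ∈ Icc 1 X, F ⌊(n : ℝ) ^ c⌋ := by
    have h1 : (high k s c X y : ℝ) ≤ (((Icc 1 X).filter (fun n : ℕ => F ⌊(n : ℝ) ^ c⌋ = 1)).card : ℝ) := by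
      have h2 : high k s c X y ≤ ((((Icc 1 X).filter (fun n : ℕ => F ⌊(n : ℝ) ^ c⌋ = 1)) : Finset ℕ) : Set ℕ).ncard := by
        apply Set.ncard_le_ncard _ (Finset.finite_toSet _)
        rintro n ⟨h1, h2, h3⟩
        rw [coe_filter, Set.mem_ofPred_eq, mem_Icc]
        refine ⟨⟨h1, h2⟩, ?_⟩
        rw [hF]
        dsimp only
        rw [if_pos fun i _ => h3 i]
      rw [Set.ncard_coe_finset] at h2
      exact_mod_cast h2
    refine h1.trans ?_
    rw [card_filter]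
    push_cast
    apply sum_le_sum
    intro n _
    split_ifs with h
    · rw [h]
    · exact hF0 _
  -- the sums over the integers
  have habs : ∀ m : ℕ, |∑ i ∈ Icc 1 m, F i - 0 * m| ≤ (C0 / y ^ c0) * m + 2 ^ j * (y + |(k : ℝ)|) := by
    intro m
    have hk0 : 0 ≤ |(k : ℝ)| := abs_nonneg _
    have hR0 : 0 ≤ 2 ^ j * (y + |(k : ℝ)|) := by positivity
    rw [zero_mul, sub_zero, abs_of_nonneg (sum_nonneg fun i _ => hF0 _)]
    rcases Nat.eq_zero_or_pos m with rfl | hm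
    · simp only [Nat.cast_zero, mul_zero, zero_add]
      rw [Icc_eq_empty (by norm_num), sum_empty]
      exact hR0
    set A := (Icc 1 m).filter (fun i : ℕ => ∀ r : ℕ, y < |(((Td k)^[r] (s * (i : ℤ)) : ℤ) : ℝ)|) with hA
    set B := (Icc 1 m).filter (fun i : ℕ => (i : ℝ) ≤ 2 ^ j * (y + |(k : ℝ)|)) with hB
    have h1 : ∀ i ∈ Icc 1 m, F (i : ℤ) ≤ (if i ∈ A then (1 : ℝ) else 0) + (if i ∈ B then 1 else 0) := by
      intro i hi
      rcases hF01 (i : ℤ) with h | h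
      · rw [h]; positivity
      · rw [h]
        have h2 : ∀ r : ℕ, j ≤ r → y < |(((Td k)^[r] (s * (i : ℤ)) : ℤ) : ℝ)| := by
          by_contra hcon
          rw [hF] at h
          dsimp only at h
          rw [if_neg hcon] at h
          norm_num at h
        by_cases h3 : ∀ r : ℕ, y < |(((Td k)^[r] (s * (i : ℤ)) : ℤ) : ℝ)|
        · rw [if_pos (by rw [hA, mem_filter]; exact ⟨hi, h3⟩)]
          have : (0 : ℝ) ≤ (if i ∈ B then 1 else 0) := by positivity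
          linarith
        · push Not at h3
          obtain ⟨r, hr⟩ := h3
          have hrj : r < j := by
            by_contra hcon
            exact absurd (h2 r (by omega)) (not_lt.2 hr)
          have h4 := fall hk (s * (i : ℤ)) r
          have h5 : |s * (i : ℤ)| = i := by
            rcases hs with rfl | rfl <;> simp
          rw [h5] at h4
          have h6 : (i : ℝ) + |(k : ℝ)| ≤ 2 ^ r * (|(((Td k)^[r] (s * (i : ℤ)) : ℤ) : ℝ)| + |(k : ℝ)|) := by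
            exact_mod_cast h4
          have h7 : (2 : ℝ) ^ r ≤ 2 ^ j := pow_le_pow_right₀ (by norm_num) hrj.le
          have h8 : (i : ℝ) ≤ 2 ^ j * (y + |(k : ℝ)|) := by
            calc (i : ℝ) ≤ 2 ^ r * (|(((Td k)^[r] (s * (i : ℤ)) : ℤ) : ℝ)| + |(k : ℝ)|) := by linarith
              _ ≤ 2 ^ r * (y + |(k : ℝ)|) := mul_le_mul_of_nonneg_left (by linarith) (by positivity)
              _ ≤ _ := mul_le_mul_of_nonneg_right h7 (by positivity)
          rw [if_pos (show i ∈ B by rw [hB, mem_filter]; exact ⟨hi, h8⟩)]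
          have : (0 : ℝ) ≤ (if i ∈ A then 1 else 0) := by positivity
          linarith
    refine (sum_le_sum h1).trans ?_
    rw [sum_add_distrib, sum_boole, sum_boole]
    have e1 : (Icc 1 m).filter (fun i => i ∈ A) = A := by
      rw [filter_mem_eq_inter]; exact inter_eq_right.2 (filter_subset _ _)
    have e2 : (Icc 1 m).filter (fun i => i ∈ B) = B := by
      rw [filter_mem_eq_inter]; exact inter_eq_right.2 (filter_subset _ _)
    rw [e1, e2]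
    have hmR : (1 : ℝ) ≤ m := by exact_mod_cast hm
    apply add_le_add
    · have h2 := H0 m y hmR hy
      have h3 : (A.card : ℝ) ≤ ({x : ℤ | |(x : ℝ)| ≤ m ∧ ∀ n : ℕ, y < |(((Td k)^[n] x : ℤ) : ℝ)|}.ncard : ℝ) := by
        have hinj : Function.Injective (fun n : ℕ => s * (n : ℤ)) := side_inj hs
        have h4 : (A.image (fun n : ℕ => s * (n : ℤ))).card = A.card := card_image_of_injective _ hinj
        rw [← h4, ← Set.ncard_coe_finset]
        have hfin : {x : ℤ | |(x : ℝ)| ≤ m ∧ ∀ n : ℕ, y < |(((Td k)^[n] x : ℤ) : ℝ)|}.Finite := by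
          apply (Set.finite_Icc (-(m : ℤ)) m).subset
          rintro x ⟨hx, -⟩
          have : |x| ≤ (m : ℤ) := by exact_mod_cast hx
          exact ⟨(abs_le.1 this).1, (abs_le.1 this).2⟩
        have h5 := Set.ncard_le_ncard (s := ((A.image (fun n : ℕ => s * (n : ℤ)) : Finset ℤ) : Set ℤ)) (by
          intro x hx
          rw [coe_image, Set.mem_image] at hx
          obtain ⟨i, hi, rfl⟩ := hx
          rw [mem_coe, hA, mem_filter, mem_Icc] at hi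
          refine ⟨?_, hi.2⟩
          have h5 : |s * (i : ℤ)| = i := by
            rcases hs with rfl | rfl <;> simp
          have h6 : |((s * (i : ℤ) : ℤ) : ℝ)| = i := by exact_mod_cast h5
          rw [h6]
          exact_mod_cast hi.1.2) hfin
        exact_mod_cast h5
      refine h3.trans (h2.trans (le_of_eq ?_))
      ring
    · have h2 : B ⊆ Icc 1 ⌊2 ^ j * (y + |(k : ℝ)|)⌋₊ := by
        intro i hi
        rw [hB, mem_filter, mem_Icc] at hi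
        rw [mem_Icc]
        exact ⟨hi.1.1, Nat.le_floor hi.2⟩
      have h3 := card_le_card h2
      rw [Nat.card_Icc, Nat.add_sub_cancel] at h3
      exact (by exact_mod_cast h3 : (B.card : ℝ) ≤ (⌊2 ^ j * (y + |(k : ℝ)|)⌋₊ : ℝ)).trans (Nat.floor_le hR0)
  have hab := Pool.Agent.Y965.PS.abel hγ0 hγ1 (a := fun i : ℕ => F (i : ℤ)) (by positivity : 0 ≤ C0 / y ^ c0)
    (by positivity : 0 ≤ 2 ^ j * (y + |(k : ℝ)|)) habs ⌊(X : ℝ) ^ c⌋₊
  rw [zero_mul, sub_zero] at hab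
  have e1 : ∑ n ∈ Icc 1 X, (if ⌊(n : ℝ) ^ c⌋ ≡ 0 [ZMOD (1 : ℕ)] then F ⌊(n : ℝ) ^ c⌋ else 0) = ∑ n ∈ Icc 1 X, F ⌊(n : ℝ) ^ c⌋ := by
    apply sum_congr rfl
    intro n _
    rw [if_pos (by rw [Nat.cast_one]; exact Int.modEq_one)]
  have e2 : ∑ m ∈ Icc 1 ⌊(X : ℝ) ^ c⌋₊, (((m : ℝ) + 1) ^ (1 / c) - (m : ℝ) ^ (1 / c)) *
      (if (m : ℤ) ≡ 0 [ZMOD (1 : ℕ)] then F m else 0) = ∑ m ∈ Icc 1 ⌊(X : ℝ) ^ c⌋₊, F (m : ℤ) * ell (1 / c) m := by
    apply sum_congr rfl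
    intro n _
    rw [if_pos (by rw [Nat.cast_one]; exact Int.modEq_one)]
    unfold ell
    ring
  rw [e1, e2, sq_side' hs] at t1
  have hMX := (size_M hc X).2
  have h3 : (C0 / y ^ c0) * ((⌊(X : ℝ) ^ c⌋₊ : ℝ) + 1) ^ (1 / c) ≤ 2 * C0 * (X / y ^ c0) := by
    calc (C0 / y ^ c0) * ((⌊(X : ℝ) ^ c⌋₊ : ℝ) + 1) ^ (1 / c) ≤ (C0 / y ^ c0) * (2 * X) :=
          mul_le_mul_of_nonneg_left (by linarith) (by positivity)
      _ = _ := by ring
  have h4 : (2 : ℝ) ^ j ≤ 2 * (X : ℝ) ^ (7 / 10 : ℝ) := by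
    have h5 : (j : ℝ) < Real.log X + 1 := Nat.ceil_lt_add_one (Real.log_nonneg hXR)
    have h6 : (2 : ℝ) ^ j = Real.exp (j * Real.log 2) := by
      rw [mul_comm, Real.exp_mul, Real.exp_log (by norm_num), Real.rpow_natCast]
    have h7 := Real.log_two_lt_d9
    have h8 : 0 < Real.log 2 := Real.log_pos (by norm_num)
    have h9 : 0 ≤ Real.log X := Real.log_nonneg hXR
    have h10 : (X : ℝ) ^ (7 / 10 : ℝ) = Real.exp (Real.log X * (7 / 10)) := by
      rw [Real.exp_mul, Real.exp_log hX0]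
    rw [h6, h10]
    calc Real.exp (j * Real.log 2) ≤ Real.exp (Real.log 2 + Real.log X * (7 / 10)) := by
          apply Real.exp_le_exp.2
          nlinarith
      _ = _ := by rw [Real.exp_add, Real.exp_log (by norm_num)]
  have h5 : 2 ^ j * (y + |(k : ℝ)|) ≤ 2 * (1 + |(k : ℝ)|) * (X : ℝ) ^ (1 - 1 / 4000 : ℝ) := by
    have h6 : y + |(k : ℝ)| ≤ (1 + |(k : ℝ)|) * (X : ℝ) ^ (1 / 10 : ℝ) := by
      have h7 : (1 : ℝ) ≤ (X : ℝ) ^ (1 / 10 : ℝ) := Real.one_le_rpow hXR (by norm_num)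
      nlinarith [abs_nonneg (k : ℝ)]
    calc 2 ^ j * (y + |(k : ℝ)|) ≤ (2 * (X : ℝ) ^ (7 / 10 : ℝ)) * ((1 + |(k : ℝ)|) * (X : ℝ) ^ (1 / 10 : ℝ)) :=
          mul_le_mul h4 h6 (by positivity) (by positivity)
      _ = 2 * (1 + |(k : ℝ)|) * ((X : ℝ) ^ (7 / 10 : ℝ) * (X : ℝ) ^ (1 / 10 : ℝ)) := by ring
      _ = 2 * (1 + |(k : ℝ)|) * (X : ℝ) ^ (7 / 10 + 1 / 10 : ℝ) := by rw [← Real.rpow_add hX0]
      _ ≤ _ := by
          apply mul_le_mul_of_nonneg_left _ (by positivity)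
          exact Real.rpow_le_rpow_of_exponent_le hXR (by norm_num)
  have h6 := (abs_le.1 t1).2
  have h7 := (abs_le.1 hab).2
  have h8 : 0 ≤ (X : ℝ) / y ^ c0 := by positivity
  have h9 : 0 ≤ (X : ℝ) ^ (1 - 1 / 4000 : ℝ) := by positivity
  have h10 : 0 ≤ K * (k : ℝ) ^ 2 := by positivity
  have h11 := abs_nonneg (k : ℝ)
  nlinarith [mul_nonneg h10 h8, mul_nonneg (mul_nonneg zero_le_two (by linarith : (0:ℝ) ≤ 1 + |(k : ℝ)|)) h8, mul_nonneg (mul_nonneg zero_le_two hC0.le) h9]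
where
  sq_side' {s k : ℤ} (hs : s = 1 ∨ s = -1) : (((s * k : ℤ)) : ℝ) ^ 2 = (k : ℝ) ^ 2 := by
    rcases hs with rfl | rfl
    · push_cast; ring
    · push_cast; ring

/-- all `y` -/
theorem low_ps {k : ℤ} (hk : k % 2 = 1) {c : ℝ} (hc : 1 < c) (hc' : c < 101 / 100) {c0 C0 : ℝ} (hc0 : 0 < c0) (hC0 : 0 < C0)
    (H0 : ∀ X y : ℝ, 1 ≤ X → 1 ≤ y →
      ({x : ℤ | |(x : ℝ)| ≤ X ∧ ∀ n : ℕ, y < |(((Td k)^[n] x : ℤ) : ℝ)|}.ncard : ℝ) ≤ C0 * X / y ^ c0) :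
    ∃ e C : ℝ, 0 < e ∧ 0 < C ∧ ∀ s : ℤ, (s = 1 ∨ s = -1) → ∀ X : ℕ, 1 ≤ X → ∀ y : ℝ, 1 ≤ y →
      (high k s c X y : ℝ) ≤ C * X / y ^ e := by
  obtain ⟨K, hK, H⟩ := low_mod hk hc hc' hC0 H0
  obtain ⟨e1, he1, he1a, he1b⟩ : ∃ e1 : ℝ, 0 < e1 ∧ e1 ≤ c0 ∧ e1 ≤ 1 / 400 :=
    ⟨min c0 (1 / 400), lt_min hc0 (by norm_num), min_le_left _ _, min_le_right _ _⟩
  have hcp : 0 < c := by linarith
  -- the moderate range
  have H1 : ∀ s : ℤ, (s = 1 ∨ s = -1) → ∀ X : ℕ, 1 ≤ X → ∀ y : ℝ, 1 ≤ y → y ≤ (X : ℝ) ^ (1 / 10 : ℝ) →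
      (high k s c X y : ℝ) ≤ (2 * K + 1) * X / y ^ e1 := by
    intro s hs X hX y hy hyX
    have hXR : (1 : ℝ) ≤ X := by exact_mod_cast hX
    have hX0 : (0 : ℝ) < X := by linarith
    have hy0 : 0 < y := by linarith
    have hye : 0 < y ^ e1 := Real.rpow_pos_of_pos hy0 _
    refine (H s hs X hX y hy hyX).trans ?_
    have h1 : (X : ℝ) / y ^ c0 ≤ X / y ^ e1 := by
      have : y ^ e1 ≤ y ^ c0 := Real.rpow_le_rpow_of_exponent_le hy he1a
      gcongr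
    have h2 : (X : ℝ) ^ (1 - 1 / 4000 : ℝ) ≤ X / y ^ e1 := by
      rw [le_div_iff₀ hye]
      have h3 : y ^ e1 ≤ (X : ℝ) ^ (1 / 4000 : ℝ) := by
        calc y ^ e1 ≤ y ^ (1 / 400 : ℝ) := Real.rpow_le_rpow_of_exponent_le hy he1b
          _ ≤ ((X : ℝ) ^ (1 / 10 : ℝ)) ^ (1 / 400 : ℝ) := Real.rpow_le_rpow hy0.le hyX (by norm_num)
          _ = (X : ℝ) ^ (1 / 4000 : ℝ) := by rw [← Real.rpow_mul hX0.le]; norm_num
      calc (X : ℝ) ^ (1 - 1 / 4000 : ℝ) * y ^ e1 ≤ (X : ℝ) ^ (1 - 1 / 4000 : ℝ) * (X : ℝ) ^ (1 / 4000 : ℝ) := by gcongr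
        _ = X := by rw [← Real.rpow_add hX0]; norm_num
    have h4 : 0 ≤ (X : ℝ) / y ^ e1 := by positivity
    have h5 : (2 * K + 1) * X / y ^ e1 = 2 * K * (X / y ^ e1) + X / y ^ e1 := by ring
    rw [h5]
    nlinarith
  refine ⟨e1 / 11, 2 * K + 1, by positivity, by positivity, fun s hs X hX y hy => ?_⟩
  have hXR : (1 : ℝ) ≤ X := by exact_mod_cast hX
  have hX0 : (0 : ℝ) < X := by linarith
  have hy0 : 0 < y := by linarith
  rcases le_or_gt ((X : ℝ) ^ c) y with hbig | hsm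
  · -- no `n` at all
    have h1 : high k s c X y = 0 := by
      unfold high
      rw [Set.ncard_eq_zero (high_fin k s c X y), Set.eq_empty_iff_forall_notMem]
      rintro n ⟨h1, h2, h3⟩
      have h4 := h3 0
      rw [Function.iterate_zero, id] at h4
      have h5 : |((s * ⌊(n : ℝ) ^ c⌋ : ℤ) : ℝ)| ≤ (n : ℝ) ^ c := by
        have h6 : (0 : ℝ) ≤ (n : ℝ) ^ c := by positivity
        have h7 : (0 : ℤ) ≤ ⌊(n : ℝ) ^ c⌋ := Int.floor_nonneg.2 h6
        have h8 : |s * ⌊(n : ℝ) ^ c⌋| = ⌊(n : ℝ) ^ c⌋ := by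
          rw [abs_mul, abs_of_nonneg h7]
          rcases hs with rfl | rfl <;> simp
        have h9 : |((s * ⌊(n : ℝ) ^ c⌋ : ℤ) : ℝ)| = (⌊(n : ℝ) ^ c⌋ : ℝ) := by exact_mod_cast h8
        rw [h9]
        exact Int.floor_le _
      have h6 : (n : ℝ) ^ c ≤ (X : ℝ) ^ c := Real.rpow_le_rpow (by positivity) (by exact_mod_cast h2) hcp.le
      linarith
    rw [h1]
    have : 0 < y ^ (e1 / 11) := Real.rpow_pos_of_pos hy0 _
    push_cast
    positivity
  · rcases le_or_gt y ((X : ℝ) ^ (1 / 10 : ℝ)) with h | h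
    · refine (H1 s hs X hX y hy h).trans ?_
      have h1 : y ^ (e1 / 11) ≤ y ^ e1 := Real.rpow_le_rpow_of_exponent_le hy (by linarith)
      have h2 : 0 < y ^ (e1 / 11) := Real.rpow_pos_of_pos hy0 _
      gcongr
    · have h1 : (1 : ℝ) ≤ (X : ℝ) ^ (1 / 10 : ℝ) := Real.one_le_rpow hXR (by norm_num)
      have h2 : (high k s c X y : ℝ) ≤ (high k s c X ((X : ℝ) ^ (1 / 10 : ℝ)) : ℝ) := by
        exact_mod_cast high_mono h.le
      refine h2.trans ((H1 s hs X hX _ h1 le_rfl).trans ?_)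
      have h3 : y ^ (e1 / 11) ≤ ((X : ℝ) ^ (1 / 10 : ℝ)) ^ e1 := by
        calc y ^ (e1 / 11) ≤ ((X : ℝ) ^ c) ^ (e1 / 11) := Real.rpow_le_rpow hy0.le hsm.le (by positivity)
          _ = (X : ℝ) ^ (c * (e1 / 11)) := by rw [← Real.rpow_mul hX0.le]
          _ ≤ (X : ℝ) ^ (1 / 10 * e1) := by
            apply Real.rpow_le_rpow_of_exponent_le hXR
            nlinarith
          _ = _ := by rw [← Real.rpow_mul hX0.le]
      have h4 : 0 < y ^ (e1 / 11) := Real.rpow_pos_of_pos hy0 _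
      gcongr

end Pool.Agent.Helper69K9.PS
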