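import Pool.Agent.Helper69K9.PS.En

/-! The transfer inequality for the sequences `⌊n ^ c⌋` twisted by linear phases and in progressions, for the
`3x+d` maps. -/

set_option autoImplicit false

namespace Pool.Agent.Helper69K9.PS

open Finset Pool.Agent.H469R2.NK Pool.Agent.Y965.PS Pool.Agent.Y55.DS Pool.Agent.Helper82K9.PM
open Pool.Agent.Helper602.MK (ee)

variable {d : ℤ}

theorem cos_e (t : ℝ) : ((Real.cos (2 * Real.pi * t) : ℝ) : ℂ) = (e t + e (-t)) / 2 := by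
  rw [← re_e, Complex.re_eq_add_conj, conj_e]

/-- the sawtooth function over the typical integers, with a linear phase -/
theorem psi_goodD {x : ℝ} (hx0 : 0 < x) (hx1 : x < 1 / 101) :
    ∃ C : ℝ, 1 ≤ C ∧ ∀ d : ℤ, d % 2 = 1 → ∀ N : ℕ, 100 ≤ Real.log N →
      2 * (d.natAbs : ℝ) + 1 ≤ Real.exp (0.01 * Real.log N) → ∀ i : ℕ, i ≤ 1 →
      ∀ θ b : ℝ, ∀ F : ℤ → ℝ, SyncAt d (5 * ⌊3 * Real.log N / 16⌋₊) F → (∀ y, 0 ≤ F y) →
      |∑ m ∈ GS d ⌊3 * Real.log N / 16⌋₊ (Real.exp (0.0125 * Real.log N)) ⌊Real.exp (0.99 * Real.log N)⌋₊ N,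
        (F m * ((1 + Real.cos (2 * Real.pi * (θ * m + b))) / 2)) * psi (-(((m : ℝ) + i) ^ (1 - x)))| ≤
          C * Real.exp ((1 - x - 1 / 4000) * Real.log N) := by
  obtain ⟨C, hC, hE⟩ := En_boundD hx0 hx1
  refine ⟨3 + C * 12000 ^ 3, by nlinarith, ?_⟩
  intro d hd2 N hL hLD i hi θ b F hF hF0
  have hEn := fun n hn hnK θ => hE d hd2 N hL hLD n i hn hi hnK θ F hF
  set L := Real.log N with hLdef
  have hNpos : (0 : ℝ) < N := by
    by_contra h
    have h0 : (N : ℝ) = 0 := le_antisymm (not_lt.1 h) (Nat.cast_nonneg _)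
    rw [hLdef, h0, Real.log_zero] at hL
    linarith
  have hexp : Real.exp L = N := Real.exp_log hNpos
  set G := GS d ⌊3 * L / 16⌋₊ (Real.exp (0.0125 * L)) ⌊Real.exp (0.99 * L)⌋₊ N with hG
  have hGc : (G.card : ℝ) ≤ Real.exp L := by rw [hexp]; exact GS_card _ _ _ _
  set K := ⌈Real.exp ((2 * x + 1 / 2000) * L)⌉₊ with hK
  have hKe : 1 ≤ Real.exp ((2 * x + 1 / 2000) * L) := Real.one_le_exp (by positivity)
  have hK1 : Real.exp ((2 * x + 1 / 2000) * L) ≤ K := Nat.le_ceil _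
  have hK2 : (K : ℝ) ≤ 2 * Real.exp ((2 * x + 1 / 2000) * L) := by
    have := Nat.ceil_lt_add_one (Real.exp_pos ((2 * x + 1 / 2000) * L)).le
    linarith
  have hK3 : (1 : ℝ) ≤ K := hKe.trans hK1
  have hK4 : 1 ≤ K := by exact_mod_cast hK3
  set η := Real.exp (-((x + 1 / 4000) * L)) with hη
  have hη0 : 0 < η := Real.exp_pos _
  have hη1 : η < 1 := by
    rw [hη, Real.exp_lt_one_iff]
    have : 0 < (x + 1 / 4000) * L := by positivity
    linarith
  have hcos0 : ∀ t : ℝ, 0 ≤ (1 + Real.cos t) / 2 := fun t => by linarith [Real.neg_one_le_cos t]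
  have hcos1 : ∀ t : ℝ, (1 + Real.cos t) / 2 ≤ 1 := fun t => by linarith [Real.cos_le_one t]
  set W : ℕ → ℝ := fun m => F m * ((1 + Real.cos (2 * Real.pi * (θ * m + b))) / 2) with hW
  have hW0 : ∀ m, 0 ≤ W m := fun m => mul_nonneg (hF0 _) (hcos0 _)
  have hW1 : ∀ m, W m ≤ 1 := fun m => mul_le_one₀ (abs_le.1 (hF.1 _)).2 (hcos0 _) (hcos1 _)
  have key := psi_sum G hW0 hW1 (fun m : ℕ => -(((m : ℝ) + i) ^ (1 - x))) hK4 hη0 hη1
  refine key.trans ?_
  set B := C * (L ^ 2 * Real.exp ((0.98453125 + x / 2) * L)) with hB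
  have hB0 : 0 ≤ B := by positivity
  -- the exponential sums with phases
  have hconj : ∀ (n : ℕ) (t : ℝ), ‖∑ m ∈ G, (F m : ℂ) * e (n * (-(((m : ℝ) + i) ^ (1 - x))) + t * m)‖
      = ‖∑ m ∈ G, (F m : ℂ) * e (n * ((m : ℝ) + i) ^ (1 - x) + (-t) * m)‖ := by
    intro n t
    have h1 : ∑ m ∈ G, (F m : ℂ) * e (n * (-(((m : ℝ) + i) ^ (1 - x))) + t * m)
        = (starRingEnd ℂ) (∑ m ∈ G, (F m : ℂ) * e (n * ((m : ℝ) + i) ^ (1 - x) + (-t) * m)) := by
      rw [map_sum]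
      apply sum_congr rfl
      intro m _
      rw [map_mul, Complex.conj_ofReal, conj_e]
      congr 2; ring
    rw [h1, RCLike.norm_conj]
  have hWn : ∀ n : ℕ, 1 ≤ n → (n : ℝ) ≤ 2 * Real.exp ((2 * x + 1 / 2000) * L) →
      ‖∑ m ∈ G, (W m : ℂ) * e (n * (-(((m : ℝ) + i) ^ (1 - x))))‖ ≤ B := by
    intro n hn hnK
    have e1 : ∑ m ∈ G, (W m : ℂ) * e (n * (-(((m : ℝ) + i) ^ (1 - x)))) =
        (1 / 2 : ℂ) * ∑ m ∈ G, (F m : ℂ) * e (n * (-(((m : ℝ) + i) ^ (1 - x))) + 0 * m) +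
        (1 / 4 * e b) * ∑ m ∈ G, (F m : ℂ) * e (n * (-(((m : ℝ) + i) ^ (1 - x))) + θ * m) +
        (1 / 4 * e (-b)) * ∑ m ∈ G, (F m : ℂ) * e (n * (-(((m : ℝ) + i) ^ (1 - x))) + (-θ) * m) := by
      rw [mul_sum, mul_sum, mul_sum, ← sum_add_distrib, ← sum_add_distrib]
      apply sum_congr rfl
      intro m _
      have c1 : (W m : ℂ) = (F m : ℂ) * ((1 + (e (θ * m + b) + e (-(θ * m + b))) / 2) / 2) := by
        rw [← cos_e, hW]; push_cast; ring
      have c2 : e (-(θ * m + b)) = e ((-θ) * m) * e (-b) := by rw [← e_add]; congr 1; ring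
      rw [c1, c2, e_add (θ * m) b, e_add _ (θ * m), e_add _ ((-θ) * m), zero_mul, add_zero]
      ring
    rw [e1]
    have n1 : ‖(1 / 2 : ℂ) * ∑ m ∈ G, (F m : ℂ) * e (n * (-(((m : ℝ) + i) ^ (1 - x))) + 0 * m)‖ ≤ 1 / 2 * B := by
      rw [norm_mul, hconj]
      have : ‖(1 / 2 : ℂ)‖ = 1 / 2 := by norm_num
      rw [this]
      exact mul_le_mul_of_nonneg_left (hEn n hn hnK _) (by norm_num)
    have n2 : ‖(1 / 4 * e b) * ∑ m ∈ G, (F m : ℂ) * e (n * (-(((m : ℝ) + i) ^ (1 - x))) + θ * m)‖ ≤ 1 / 4 * B := by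
      rw [norm_mul, hconj, norm_mul, norm_e, mul_one]
      have : ‖(1 / 4 : ℂ)‖ = 1 / 4 := by norm_num
      rw [this]
      exact mul_le_mul_of_nonneg_left (hEn n hn hnK _) (by norm_num)
    have n3 : ‖(1 / 4 * e (-b)) * ∑ m ∈ G, (F m : ℂ) * e (n * (-(((m : ℝ) + i) ^ (1 - x))) + (-θ) * m)‖ ≤ 1 / 4 * B := by
      rw [norm_mul, hconj, norm_mul, norm_e, mul_one]
      have : ‖(1 / 4 : ℂ)‖ = 1 / 4 := by norm_num
      rw [this]
      exact mul_le_mul_of_nonneg_left (hEn n hn hnK _) (by norm_num)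
    refine (norm_add₃_le).trans ?_
    linarith
  set E := Real.exp ((1 - x - 1 / 4000) * L) with hEdef
  have t1 : η * G.card ≤ E := by
    calc η * G.card ≤ η * Real.exp L := mul_le_mul_of_nonneg_left hGc hη0.le
      _ = E := by rw [hη, hEdef, ← Real.exp_add]; congr 1; ring
  have t2 : 2 * (G.card : ℝ) / (η * K) ≤ 2 * E := by
    rw [div_le_iff₀ (by positivity)]
    have h1 : E * (η * Real.exp ((2 * x + 1 / 2000) * L)) = Real.exp L := by
      rw [hη, hEdef, ← Real.exp_add, ← Real.exp_add]; congr 1; ring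
    have h2 : E * (η * Real.exp ((2 * x + 1 / 2000) * L)) ≤ E * (η * K) := by
      have : 0 < E := Real.exp_pos _
      gcongr
    linarith
  have t3 : ∑ n ∈ Icc 1 K, 1 / (n : ℝ) * ‖∑ m ∈ G, (W m : ℂ) * e (n * (-(((m : ℝ) + i) ^ (1 - x))))‖
      ≤ C * 12000 ^ 3 * E := by
    have h1 : ∀ n ∈ Icc 1 K, 1 / (n : ℝ) * ‖∑ m ∈ G, (W m : ℂ) * e (n * (-(((m : ℝ) + i) ^ (1 - x))))‖ ≤ 1 / (n : ℝ) * B := by
      intro n hn
      rw [mem_Icc] at hn
      apply mul_le_mul_of_nonneg_left _ (by positivity)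
      exact hWn n hn.1 ((by exact_mod_cast hn.2 : (n : ℝ) ≤ K).trans hK2)
    refine (sum_le_sum h1).trans ?_
    rw [← sum_mul]
    have h2 : ∑ n ∈ Icc 1 K, 1 / (n : ℝ) ≤ L := by
      refine (harm K).trans ?_
      have h3 : Real.log K ≤ Real.log (2 * Real.exp ((2 * x + 1 / 2000) * L)) := Real.log_le_log (by linarith) hK2
      rw [Real.log_mul (by norm_num) (Real.exp_pos _).ne', Real.log_exp] at h3
      have h4 := Real.log_two_lt_d9
      nlinarith
    have h5 : L ^ 3 ≤ 12000 ^ 3 * Real.exp (1 / 4000 * L) := by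
      have h6 : L / 12000 ≤ Real.exp (L / 12000) := by linarith [Real.add_one_le_exp (L / 12000)]
      have h7 : (L / 12000) ^ 3 ≤ Real.exp (L / 12000) ^ 3 := pow_le_pow_left₀ (by linarith) h6 3
      have h8 : Real.exp (L / 12000) ^ 3 = Real.exp (1 / 4000 * L) := by
        rw [← Real.exp_nat_mul]; congr 1; push_cast; ring
      rw [h8, div_pow, div_le_iff₀ (by positivity)] at h7
      linarith
    calc (∑ n ∈ Icc 1 K, 1 / (n : ℝ)) * B ≤ L * B := mul_le_mul_of_nonneg_right h2 hB0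
      _ = C * L ^ 3 * Real.exp ((0.98453125 + x / 2) * L) := by rw [hB]; ring
      _ ≤ C * (12000 ^ 3 * Real.exp (1 / 4000 * L)) * Real.exp ((0.98453125 + x / 2) * L) := by
          gcongr
      _ = C * 12000 ^ 3 * Real.exp (1 / 4000 * L + (0.98453125 + x / 2) * L) := by rw [Real.exp_add]; ring
      _ ≤ C * 12000 ^ 3 * E := by
          apply mul_le_mul_of_nonneg_left _ (by positivity)
          rw [hEdef]
          apply Real.exp_le_exp.2
          nlinarith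
  calc _ ≤ E + 2 * E + C * 12000 ^ 3 * E := add_le_add (add_le_add t1 t2) t3
    _ = _ := by ring

open Classical in
/-- the transfer inequality with a cosine -/
theorem main_cos {x : ℝ} (hx0 : 0 < x) (hx1 : x < 1 / 101) :
    ∃ C : ℝ, 1 ≤ C ∧ ∀ d : ℤ, d % 2 = 1 → ∀ N : ℕ, 1 ≤ N → ∀ θ b : ℝ, ∀ F : ℤ → ℝ,
      SyncAt d (5 * ⌊3 * Real.log N / 16⌋₊) F →
      |∑ m ∈ Icc 1 N, F m * Real.cos (2 * Real.pi * (θ * m + b)) * ww (1 - x) m| ≤
        C * (d : ℝ) ^ 2 * (N : ℝ) ^ (1 - x - 1 / 4000) := by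
  obtain ⟨C, hC, hP⟩ := psi_goodD hx0 hx1
  refine ⟨Real.exp 100 + 18 * C + 20000, by have := Real.exp_pos 100; linarith, ?_⟩
  intro d hd2 N hN θ b F hF
  have hDn : (0 : ℝ) ≤ d.natAbs := Nat.cast_nonneg _
  have hD1 : (1 : ℝ) ≤ d.natAbs := by exact_mod_cast (by omega : 1 ≤ d.natAbs)
  have hdd : (d : ℝ) ^ 2 = (d.natAbs : ℝ) ^ 2 := by
    rw [Nat.cast_natAbs, Int.cast_abs, sq_abs]
  have hd1 : (1 : ℝ) ≤ (d : ℝ) ^ 2 := by rw [hdd]; exact one_le_pow₀ hD1
  have hNpos : (0 : ℝ) < N := by exact_mod_cast hN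
  set L := Real.log N with hLdef
  have hexp : Real.exp L = N := Real.exp_log hNpos
  have hE : (N : ℝ) ^ (1 - x - 1 / 4000) = Real.exp ((1 - x - 1 / 4000) * L) := by
    rw [← hexp, ← Real.exp_mul]; congr 1; ring
  rw [hE]
  set E := Real.exp ((1 - x - 1 / 4000) * L) with hEdef
  have hE0 : 0 < E := Real.exp_pos _
  have hone : ∀ m : ℕ, |F m * Real.cos (2 * Real.pi * (θ * m + b)) * ww (1 - x) m| ≤ 1 := by
    intro m
    rw [abs_mul, abs_mul]
    have h1 : |F m| * |Real.cos (2 * Real.pi * (θ * m + b))| ≤ 1 :=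
      mul_le_one₀ (hF.1 m) (abs_nonneg _) (Real.abs_cos_le_one _)
    exact mul_le_one₀ h1 (abs_nonneg _) (ww_le_one (1 - x) m)
  have hL0 : 0 ≤ L := Real.log_natCast_nonneg N
  have htriv : |∑ m ∈ Icc 1 N, F m * Real.cos (2 * Real.pi * (θ * m + b)) * ww (1 - x) m| ≤ N := by
    refine (abs_sum_le_sum_abs _ _).trans ?_
    refine (sum_le_sum (fun m _ => hone m)).trans ?_
    simp
  have hep := Real.exp_pos 100
  rcases lt_or_ge L 100 with hL' | hL
  · -- small `N`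
    have h3 : (N : ℝ) ≤ Real.exp 100 := by rw [← hexp]; exact Real.exp_le_exp.2 hL'.le
    have h4 : 1 ≤ E := by
      rw [hEdef]; apply Real.one_le_exp
      apply mul_nonneg _ hL0
      linarith
    calc _ ≤ (N : ℝ) := htriv
      _ ≤ (Real.exp 100 + 18 * C + 20000) * 1 * 1 := by linarith
      _ ≤ _ := by gcongr
  rcases lt_or_ge (Real.exp (0.01 * L)) (2 * (d.natAbs : ℝ) + 1) with hL' | hL'
  · -- large `d`
    have h3 : (N : ℝ) ≤ 9 * (d : ℝ) ^ 2 * E := by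
      have h5 : Real.exp (0.01 * L) ^ 2 ≤ 9 * (d : ℝ) ^ 2 := by
        have h6 : Real.exp (0.01 * L) ≤ 3 * (d.natAbs : ℝ) := by linarith
        have h7 := pow_le_pow_left₀ (Real.exp_pos _).le h6 2
        rw [hdd]
        linarith [h7, mul_pow (3 : ℝ) (d.natAbs : ℝ) 2]
      calc (N : ℝ) = Real.exp L := hexp.symm
        _ ≤ Real.exp (0.01 * L) ^ 2 * E := by
          rw [← Real.exp_nat_mul, hEdef, ← Real.exp_add]
          apply Real.exp_le_exp.2
          push_cast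
          nlinarith
        _ ≤ _ := mul_le_mul_of_nonneg_right h5 hE0.le
    have h8 : 0 ≤ (d : ℝ) ^ 2 * E := by positivity
    calc _ ≤ (N : ℝ) := htriv
      _ ≤ 9 * ((d : ℝ) ^ 2 * E) := by rw [← mul_assoc]; exact h3
      _ ≤ (Real.exp 100 + 18 * C + 20000) * ((d : ℝ) ^ 2 * E) := mul_le_mul_of_nonneg_right (by linarith) h8
      _ = _ := by ring
  suffices hsuf : |∑ m ∈ Icc 1 N, F m * Real.cos (2 * Real.pi * (θ * m + b)) * ww (1 - x) m| ≤
      (Real.exp 100 + 18 * C + 20000) * E by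
    calc _ ≤ (Real.exp 100 + 18 * C + 20000) * E := hsuf
      _ = (Real.exp 100 + 18 * C + 20000) * 1 * E := by ring
      _ ≤ _ := by gcongr
  have hG := fun i hi θ b F hF hF0 => hP d hd2 N hL hL' i hi θ b F hF hF0
  set u := ⌊3 * L / 16⌋₊ with hu
  have hu1 : (u : ℝ) ≤ 3 * L / 16 := Nat.floor_le (by linarith)
  have hu2 : 3 * L / 16 < u + 1 := Nat.lt_floor_add_one _
  set R := Real.exp (0.0125 * L) with hR
  have hR0 : 0 < R := Real.exp_pos _
  set N1 := ⌊Real.exp (0.99 * L)⌋₊ with hN1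
  have hE99 : 1 ≤ Real.exp (0.99 * L) := Real.one_le_exp (by linarith)
  have hN1a : (N1 : ℝ) ≤ Real.exp (0.99 * L) := Nat.floor_le (by positivity)
  have hN1N : N1 ≤ N := by
    have h1 : (N1 : ℝ) ≤ N := by
      rw [← hexp]; exact hN1a.trans (Real.exp_le_exp.2 (by linarith))
    exact_mod_cast h1
  set G := GS d u R N1 N with hGdef
  set Wf : ℕ → ℝ := fun m => F m * Real.cos (2 * Real.pi * (θ * m + b)) * ww (1 - x) m with hWf
  -- decomposition
  have hdec : ∑ m ∈ Icc 1 N, Wf m = ∑ m ∈ Icc 1 N1, Wf m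
      + (∑ m ∈ G, Wf m + ∑ m ∈ (Ioc N1 N).filter (fun m : ℕ => ¬ Good d u R (m : ℤ)), Wf m) := by
    have h1 : Icc 1 N = Icc 1 N1 ∪ Ioc N1 N := by
      ext m; simp only [mem_union, mem_Icc, mem_Ioc]; omega
    rw [h1, sum_union]
    · congr 1
      rw [hGdef]; unfold GS
      rw [sum_filter_add_sum_filter_not]
    · rw [Finset.disjoint_left]
      intro m hm hm'
      rw [mem_Icc] at hm
      rw [mem_Ioc] at hm'
      omega
  -- small part
  have p1 : |∑ m ∈ Icc 1 N1, Wf m| ≤ 4 * E := by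
    have h0 := ww_small (by linarith : (0 : ℝ) < 1 - x)
      (F := fun y : ℤ => F y * Real.cos (2 * Real.pi * (θ * y + b))) (fun y => by
        rw [abs_mul]
        exact mul_le_one₀ (hF.1 y) (abs_nonneg _) (Real.abs_cos_le_one _)) N1
    have e0 : ∑ m ∈ Icc 1 N1, (fun y : ℤ => F y * Real.cos (2 * Real.pi * (θ * y + b))) (m : ℤ) * ww (1 - x) m
        = ∑ m ∈ Icc 1 N1, Wf m := by
      apply sum_congr rfl
      intro m _
      rw [hWf]
      simp only [Int.cast_natCast]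
    rw [e0] at h0
    refine h0.trans ?_
    have h1 : ((N1 : ℝ) + 1) ^ (1 - x) ≤ (2 * Real.exp (0.99 * L)) ^ (1 - x) :=
      Real.rpow_le_rpow (by positivity) (by linarith) (by linarith)
    have h2 : (2 * Real.exp (0.99 * L)) ^ (1 - x) ≤ 2 * E := by
      rw [Real.mul_rpow (by norm_num) (Real.exp_pos _).le, ← Real.exp_mul]
      have h3 : (2 : ℝ) ^ (1 - x) ≤ 2 := by
        calc (2 : ℝ) ^ (1 - x) ≤ (2 : ℝ) ^ (1 : ℝ) := Real.rpow_le_rpow_of_exponent_le (by norm_num) (by linarith)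
          _ = 2 := by norm_num
      have h4 : Real.exp (0.99 * L * (1 - x)) ≤ E := by
        rw [hEdef]; apply Real.exp_le_exp.2; nlinarith
      exact mul_le_mul h3 h4 (Real.exp_pos _).le (by norm_num)
    linarith
  -- bad part
  have p2 : |∑ m ∈ (Ioc N1 N).filter (fun m : ℕ => ¬ Good d u R (m : ℤ)), Wf m| ≤ 10000 * E := by
    refine (abs_sum_le_sum_abs _ _).trans ?_
    refine (sum_le_sum (fun m _ => hone m)).trans ?_
    rw [sum_const, nsmul_eq_mul, mul_one]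
    have hq : 2 ^ (5 * u) ≤ N := by
      have h1 : ((2 : ℝ) ^ (5 * u)) ≤ N := by
        rw [pow_mul, show ((2 : ℝ) ^ 5) = 32 by norm_num, ← hexp]
        refine (pow_exp_le (by norm_num) exp_c4 u).trans (Real.exp_le_exp.2 ?_)
        linarith
      exact_mod_cast h1
    have h3 : (((Ioc N1 N).filter (fun m : ℕ => ¬ Good d u R (m : ℤ))).card : ℝ)
        ≤ (((Icc 1 N).filter fun m : ℕ => ¬ Good d u R (m : ℤ)).card : ℝ) := by
      have : ((Ioc N1 N).filter (fun m : ℕ => ¬ Good d u R (m : ℤ))) ⊆ ((Icc 1 N).filter fun m : ℕ => ¬ Good d u R (m : ℤ)) := by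
        intro m hm
        rw [mem_filter, mem_Ioc] at hm
        rw [mem_filter, mem_Icc]
        exact ⟨by omega, hm.2⟩
      exact_mod_cast card_le_card this
    refine h3.trans ((bad_count u hR0 N hq).trans ?_)
    have g1 : N * (3125 / 3456 : ℝ) ^ u ≤ 2 * E := by
      have g2 : (3125 / 3456 : ℝ) ^ u ≤ Real.exp (-0.08 * u) := pow_exp_le (by norm_num) c2' u
      calc (N : ℝ) * (3125 / 3456) ^ u ≤ N * Real.exp (-0.08 * u) := mul_le_mul_of_nonneg_left g2 hNpos.le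
        _ = Real.exp (L + -0.08 * u) := by rw [Real.exp_add, hexp]
        _ ≤ Real.exp (0.08 + (1 - x - 1 / 4000) * L) := Real.exp_le_exp.2 (by nlinarith)
        _ = Real.exp 0.08 * E := by rw [Real.exp_add]
        _ ≤ 2 * E := by
          apply mul_le_mul_of_nonneg_right _ hE0.le
          exact exp_c2.trans (by norm_num)
    have g3 : N * (5 * (u : ℝ) / (4 * R)) ≤ 1000 * E := by
      have g4 : (1 : ℝ) / R = Real.exp (-0.0125 * L) := by
        rw [hR, one_div, ← Real.exp_neg]; congr 1; ring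
      have g5 : L ≤ 4000 * Real.exp (1 / 4000 * L) := by
        have h6 := Real.add_one_le_exp (1 / 4000 * L)
        linarith
      calc N * (5 * (u : ℝ) / (4 * R)) = (5 / 4) * u * (N * (1 / R)) := by field_simp
        _ = (5 / 4) * u * Real.exp (L + -0.0125 * L) := by rw [g4, Real.exp_add, hexp]
        _ ≤ (5 / 4) * (3 * L / 16) * Real.exp (L + -0.0125 * L) := by gcongr
        _ = (15 / 64) * L * Real.exp (L + -0.0125 * L) := by ring
        _ ≤ (15 / 64) * (4000 * Real.exp (1 / 4000 * L)) * Real.exp (L + -0.0125 * L) := by gcongr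
        _ = (15 / 64) * 4000 * Real.exp (1 / 4000 * L + (L + -0.0125 * L)) := by rw [Real.exp_add (1 / 4000 * L)]; ring
        _ ≤ (15 / 64) * 4000 * E := by
            apply mul_le_mul_of_nonneg_left _ (by norm_num)
            rw [hEdef]
            apply Real.exp_le_exp.2
            nlinarith
        _ ≤ 1000 * E := by nlinarith
    have e1 : 2 * (N : ℝ) * (2 * (3125 / 3456) ^ u + 5 * u / (4 * R))
        = 4 * (N * (3125 / 3456 : ℝ) ^ u) + 2 * (N * (5 * (u : ℝ) / (4 * R))) := by ring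
    rw [e1]
    nlinarith
  -- good part
  have p3 : |∑ m ∈ G, Wf m| ≤ 18 * C * E := by
    have h1 : ∀ F : ℤ → ℝ, SyncAt d (5 * u) F → (∀ y, 0 ≤ F y) → ∀ θ b : ℝ,
        |∑ m ∈ G, (F m * ((1 + Real.cos (2 * Real.pi * (θ * m + b))) / 2)) * ww (1 - x) m| ≤ 2 * C * E := by
      intro F hF hF0 θ b
      have a0 := hG 0 (by norm_num) θ b F hF hF0
      have a1 := hG 1 le_rfl θ b F hF hF0
      rw [← hLdef, ← hEdef] at a0 a1
      have e1 : ∑ m ∈ G, (F m * ((1 + Real.cos (2 * Real.pi * (θ * m + b))) / 2)) * ww (1 - x) m =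
          ∑ m ∈ G, (F m * ((1 + Real.cos (2 * Real.pi * (θ * m + b))) / 2)) * psi (-(((m : ℝ) + (1 : ℕ)) ^ (1 - x)))
          - ∑ m ∈ G, (F m * ((1 + Real.cos (2 * Real.pi * (θ * m + b))) / 2)) * psi (-(((m : ℝ) + (0 : ℕ)) ^ (1 - x))) := by
        rw [← sum_sub_distrib]
        apply sum_congr rfl
        intro m _
        rw [ww_psi]
        push_cast
        rw [add_zero]; ring
      rw [e1]
      refine (abs_sub _ _).trans ?_
      linarith
    have h2 : ∀ F : ℤ → ℝ, SyncAt d (5 * u) F → (∀ y, 0 ≤ F y) →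
        |∑ m ∈ G, F m * Real.cos (2 * Real.pi * (θ * m + b)) * ww (1 - x) m| ≤ 6 * C * E := by
      intro F hF hF0
      have a0 := h1 F hF hF0 θ b
      have a1 := h1 F hF hF0 0 0
      have e2 : ∑ m ∈ G, F m * Real.cos (2 * Real.pi * (θ * m + b)) * ww (1 - x) m =
          2 * ∑ m ∈ G, (F m * ((1 + Real.cos (2 * Real.pi * (θ * m + b))) / 2)) * ww (1 - x) m -
          ∑ m ∈ G, (F m * ((1 + Real.cos (2 * Real.pi * (0 * m + 0))) / 2)) * ww (1 - x) m := by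
        rw [mul_sum, ← sum_sub_distrib]
        apply sum_congr rfl
        intro m _
        rw [zero_mul, add_zero, mul_zero, Real.cos_zero]
        ring
      rw [e2]
      refine (abs_sub _ _).trans ?_
      rw [abs_mul, abs_two]
      linarith
    have h3 := h2 _ (half_at hF) (fun y => by
      have := (abs_le.1 (hF.1 y)).1
      linarith)
    have h4 := h2 _ (one_at _) (fun y => by norm_num)
    have e2 : ∑ m ∈ G, Wf m = 2 * ∑ m ∈ G, (1 + F m) / 2 * Real.cos (2 * Real.pi * (θ * m + b)) * ww (1 - x) m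
        - ∑ m ∈ G, 1 * Real.cos (2 * Real.pi * (θ * m + b)) * ww (1 - x) m := by
      rw [mul_sum, ← sum_sub_distrib]
      apply sum_congr rfl
      intro m _
      rw [hWf]; ring
    rw [e2]
    refine (abs_sub _ _).trans ?_
    rw [abs_mul, abs_two]
    linarith
  rw [hdec]
  have h4 := abs_add_le (∑ m ∈ Icc 1 N1, Wf m)
    (∑ m ∈ G, Wf m + ∑ m ∈ (Ioc N1 N).filter (fun m : ℕ => ¬ Good d u R (m : ℤ)), Wf m)
  have h5 := abs_add_le (∑ m ∈ G, Wf m)
    (∑ m ∈ (Ioc N1 N).filter (fun m : ℕ => ¬ Good d u R (m : ℤ)), Wf m)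
  have h6 : 0 < Real.exp 100 * E := by positivity
  nlinarith

/-- the transfer inequality with a linear phase -/
theorem main_phase {x : ℝ} (hx0 : 0 < x) (hx1 : x < 1 / 101) :
    ∃ C : ℝ, 1 ≤ C ∧ ∀ d : ℤ, d % 2 = 1 → ∀ N : ℕ, 1 ≤ N → ∀ θ : ℝ, ∀ F : ℤ → ℝ,
      SyncAt d (5 * ⌊3 * Real.log N / 16⌋₊) F →
      ‖∑ m ∈ Icc 1 N, ((F m * ww (1 - x) m : ℝ) : ℂ) * e (θ * m)‖ ≤ C * (d : ℝ) ^ 2 * (N : ℝ) ^ (1 - x - 1 / 4000) := by
  obtain ⟨C, hC, H⟩ := main_cos hx0 hx1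
  refine ⟨2 * C, by linarith, fun d hd2 N hN θ F hF => ?_⟩
  have h1 := H d hd2 N hN θ 0 F hF
  have h2 := H d hd2 N hN θ (-(1 / 4)) F hF
  have hre : (∑ m ∈ Icc 1 N, ((F m * ww (1 - x) m : ℝ) : ℂ) * e (θ * m)).re =
      ∑ m ∈ Icc 1 N, F m * Real.cos (2 * Real.pi * (θ * m + 0)) * ww (1 - x) m := by
    rw [Complex.re_sum]
    apply sum_congr rfl
    intro m _
    rw [Complex.re_ofReal_mul, re_e, add_zero]
    ring
  have him : (∑ m ∈ Icc 1 N, ((F m * ww (1 - x) m : ℝ) : ℂ) * e (θ * m)).im =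
      ∑ m ∈ Icc 1 N, F m * Real.cos (2 * Real.pi * (θ * m + -(1 / 4))) * ww (1 - x) m := by
    rw [Complex.im_sum]
    apply sum_congr rfl
    intro m _
    rw [Complex.im_ofReal_mul]
    have e1 : (e (θ * m)).im = Real.sin (2 * Real.pi * (θ * m)) := by
      unfold e
      rw [Complex.exp_ofReal_mul_I_im]
    have e2 : Real.cos (2 * Real.pi * (θ * m + -(1 / 4))) = Real.sin (2 * Real.pi * (θ * m)) := by
      rw [← Real.cos_sub_pi_div_two]; congr 1; ring
    rw [e1, e2]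
    ring
  refine (Complex.norm_le_abs_re_add_abs_im _).trans ?_
  rw [hre, him]
  linarith

open Classical in
/-- the transfer inequality in progressions -/
theorem main_ap {x : ℝ} (hx0 : 0 < x) (hx1 : x < 1 / 101) :
    ∃ C : ℝ, 1 ≤ C ∧ ∀ d : ℤ, d % 2 = 1 → ∀ N : ℕ, 1 ≤ N → ∀ q : ℕ, 1 ≤ q → ∀ a : ℤ, ∀ F : ℤ → ℝ,
      SyncAt d (5 * ⌊3 * Real.log N / 16⌋₊) F →
      |∑ m ∈ Icc 1 N, (if (m : ℤ) ≡ a [ZMOD q] then F m * ww (1 - x) m else 0)| ≤
        C * (d : ℝ) ^ 2 * (N : ℝ) ^ (1 - x - 1 / 4000) := by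
  obtain ⟨C, hC, H⟩ := main_phase hx0 hx1
  refine ⟨C, hC, fun d hd2 N hN q hq a F hF => ?_⟩
  have h1 := ap_norm q hq a (Icc 1 N) (fun m : ℕ => ((F m * ww (1 - x) m : ℝ) : ℂ))
    (B := C * (d : ℝ) ^ 2 * (N : ℝ) ^ (1 - x - 1 / 4000)) (by
    intro b _
    refine le_trans (le_of_eq ?_) (H d hd2 N hN ((b : ℝ) / q) F hF)
    congr 1
    apply sum_congr rfl
    intro m _
    congr 1
    unfold ee e
    push_cast
    rfl)
  have e1 : ∑ m ∈ Icc 1 N, (if (m : ℤ) ≡ a [ZMOD q] then ((F m * ww (1 - x) m : ℝ) : ℂ) else 0) =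
      ((∑ m ∈ Icc 1 N, (if (m : ℤ) ≡ a [ZMOD q] then F m * ww (1 - x) m else 0) : ℝ) : ℂ) := by
    rw [Complex.ofReal_sum]
    apply sum_congr rfl
    intro m _
    split_ifs
    · rfl
    · simp
  rw [e1, Complex.norm_real, Real.norm_eq_abs] at h1
  exact h1

end Pool.Agent.Helper69K9.PS
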